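import Mathlib

/-!
# The hierarchical preferential attachment model: definitions

Nodes are numbered `0, 1, 2, ...` in order of arrival.
-/

namespace Pool.Agent.Helper77_PA

open Finset

noncomputable section

/-- Parameters of the model with `K` communities: a probability vector `prob` and a symmetric
matrix `aff` with positive entries. -/
structure Param (K : ℕ) where
  prob : Fin K → ℝ
  aff : Fin K → Fin K → ℝ
  prob_nonneg : ∀ i, 0 ≤ prob i
  prob_sum : ∑ i, prob i = 1
  aff_pos : ∀ i j, 0 < aff i j
  aff_symm : ∀ i j, aff i j = aff j i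

/-- The observed history after `n` steps: `h k` is the number of the node that node `k` links to;
`h k = k` means that node `k` has a self-loop. -/
abbrev Hist (n : ℕ) : Type := (k : Fin n) → Fin (k.val + 1)

/-- The degree of node `v` after the first `m` steps of the history `h` (a loop counts `2`). -/
def deg {n : ℕ} (h : Hist n) (m v : ℕ) : ℕ :=
  ∑ k : Fin n, if k.val < m then
    (if k.val = v then 1 else 0) + (if (h k).val = v then 1 else 0) else 0

/-- The label of the node that node `k` links to. -/
def tgtLabel {K n : ℕ} (h : Hist n) (l : Fin n → Fin K) (k : Fin n) : Fin K :=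
  l ⟨(h k).val, lt_of_lt_of_le (h k).isLt (Nat.succ_le_of_lt k.isLt)⟩

/-- The normalising constant of step `k` when the new node has label `j` and the earlier nodes
have the labels `l` (nodes that have not arrived yet have degree `0`). -/
def norm {K n : ℕ} (p : Param K) (h : Hist n) (l : Fin n → Fin K) (k : ℕ) (j : Fin K) : ℝ :=
  (∑ v : Fin n, p.aff j (l v) * (deg h k v.val : ℝ)) + p.aff j j

/-- The conditional probability of the link of node `k`, given the labels and the history
before step `k`. -/
def linkProb {K n : ℕ} (p : Param K) (h : Hist n) (l : Fin n → Fin K) (k : Fin n) : ℝ :=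
  (if (h k).val = k.val then p.aff (l k) (l k)
    else p.aff (l k) (tgtLabel h l k) * (deg h k.val (h k).val : ℝ)) / norm p h l k.val (l k)

/-- The joint probability of labels and history. -/
def joint {K n : ℕ} (p : Param K) (h : Hist n) (l : Fin n → Fin K) : ℝ :=
  ∏ k : Fin n, p.prob (l k) * linkProb p h l k

/-- The probability of the observed history: the marginal likelihood `G_n`. -/
def law {K n : ℕ} (p : Param K) (h : Hist n) : ℝ :=
  ∑ l : Fin n → Fin K, joint p h l

/-- Two parameters induce the same law of the observed history for all `n`. -/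
def SameLaw {K : ℕ} (p q : Param K) : Prop :=
  ∀ (n : ℕ) (h : Hist n), law p h = law q h

/-- `p` is obtained from `q` by a relabelling of the communities and a scaling of the matrix. -/
def Equivalent {K : ℕ} (p q : Param K) : Prop :=
  ∃ (σ : Equiv.Perm (Fin K)) (c : ℝ), 0 < c ∧ (∀ i, p.prob (σ i) = q.prob i) ∧
    ∀ i j, p.aff (σ i) (σ j) = c * q.aff i j

/-- Identifiable parameters. -/
def Identifiable {K : ℕ} (q : Param K) : Prop :=
  (∀ i, 0 < q.prob i) ∧ ∀ p : Param K, SameLaw p q → Equivalent p q

/-- Up to a relabelling, and with both matrices scaled to have total sum `1`, all entries of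
the pair `a` (a vector and a matrix) and of `q` differ by less than `ε`. -/
def Close {K : ℕ} (ε : ℝ) (a : (Fin K → ℝ) × (Fin K → Fin K → ℝ)) (q : Param K) : Prop :=
  ∃ σ : Equiv.Perm (Fin K), (∀ i, |a.1 (σ i) - q.prob i| < ε) ∧
    ∀ i j, |a.2 (σ i) (σ j) / (∑ k, ∑ l, a.2 k l) - q.aff i j / (∑ k, ∑ l, q.aff k l)| < ε

/-- A sequence of estimators: any vector and matrix for each observed history. -/
abbrev Estimator (K : ℕ) : Type :=
  (n : ℕ) → Hist n → (Fin K → ℝ) × (Fin K → Fin K → ℝ)

open Classical in
/-- The estimator converges in probability to `q`, up to relabelling and scaling, when the data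
come from the model with parameter `q`. -/
def ConsistentAt {K : ℕ} (T : Estimator K) (q : Param K) : Prop :=
  ∀ ε : ℝ, 0 < ε → Filter.Tendsto
    (fun n => ∑ h : Hist n, if Close ε (T n h) q then law q h else 0) Filter.atTop (nhds 1)

/-- Histories extended by one step. -/
def snocH {n : ℕ} (h : Hist n) (v : Fin (n + 1)) : Hist (n + 1) :=
  Fin.snoc (α := fun k : Fin (n + 1) => Fin (k.val + 1)) h v

/-- Labels extended by one step. -/
def snocL {K n : ℕ} (l : Fin n → Fin K) (j : Fin K) : Fin (n + 1) → Fin K :=
  Fin.snoc (α := fun _ => Fin K) l j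

theorem sum_hist_succ {n : ℕ} (F : Hist (n + 1) → ℝ) :
    ∑ h : Hist (n + 1), F h = ∑ h : Hist n, ∑ v : Fin (n + 1), F (snocH h v) := by
  rw [← (Fin.snocEquiv (fun k : Fin (n + 1) => Fin (k.val + 1))).sum_comp, Fintype.sum_prod_type,
    Finset.sum_comm]
  rfl

theorem sum_lab_succ {K n : ℕ} (F : (Fin (n + 1) → Fin K) → ℝ) :
    ∑ l : Fin (n + 1) → Fin K, F l = ∑ l : Fin n → Fin K, ∑ j : Fin K, F (snocL l j) := by
  rw [← (Fin.snocEquiv (fun _ : Fin (n + 1) => Fin K)).sum_comp, Fintype.sum_prod_type,
    Finset.sum_comm]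
  rfl

@[simp] theorem snocH_castSucc {n : ℕ} (h : Hist n) (v : Fin (n + 1)) (k : Fin n) :
    snocH h v k.castSucc = h k := by
  simp [snocH]

@[simp] theorem snocH_last {n : ℕ} (h : Hist n) (v : Fin (n + 1)) :
    snocH h v (Fin.last n) = v := by
  simp [snocH]

@[simp] theorem snocL_castSucc {K n : ℕ} (l : Fin n → Fin K) (j : Fin K) (k : Fin n) :
    snocL l j k.castSucc = l k := by
  simp [snocL]

@[simp] theorem snocL_last {K n : ℕ} (l : Fin n → Fin K) (j : Fin K) :
    snocL l j (Fin.last n) = j := by
  simp [snocL]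

/-- Degrees up to time `m ≤ n` do not see the last step. -/
theorem deg_snoc {n : ℕ} (h : Hist n) (v : Fin (n + 1)) {m : ℕ} (hm : m ≤ n) (u : ℕ) :
    deg (snocH h v) m u = deg h m u := by
  unfold deg
  rw [Fin.sum_univ_castSucc]
  simp [not_lt.mpr hm]

/-- Degrees after the last step. -/
theorem deg_snoc_succ {n : ℕ} (h : Hist n) (v : Fin (n + 1)) (u : ℕ) :
    deg (snocH h v) (n + 1) u =
      deg h n u + ((if n = u then 1 else 0) + (if v.val = u then 1 else 0)) := by
  unfold deg
  rw [Fin.sum_univ_castSucc]
  simp only [Fin.val_castSucc, snocH_castSucc, Fin.val_last, snocH_last, Nat.lt_succ_self,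
    if_true]
  congr 1
  apply Finset.sum_congr rfl
  intro k _
  simp [k.isLt, Nat.lt_succ_of_lt k.isLt]

/-- A node that has not arrived has degree `0`. -/
theorem deg_eq_zero {n : ℕ} (h : Hist n) {m u : ℕ} (hmu : m ≤ u) : deg h m u = 0 := by
  unfold deg
  apply Finset.sum_eq_zero
  intro k _
  split_ifs with h1 h2 h3 h3
  · omega
  · omega
  · have := (h k).isLt
    omega
  · rfl
  · rfl

/-- Total degree. -/
theorem sum_deg {n : ℕ} (h : Hist n) : ∑ v : Fin n, deg h n v.val = 2 * n := by
  unfold deg
  rw [Finset.sum_comm]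
  have : ∀ k : Fin n, ∑ v : Fin n, (if k.val < n then
      (if k.val = v.val then 1 else 0) + (if (h k).val = v.val then 1 else 0) else 0) = 2 := by
    intro k
    simp only [k.isLt, if_true]
    rw [Finset.sum_add_distrib]
    have h1 : ∑ v : Fin n, (if k.val = v.val then 1 else 0) = 1 := by
      simp only [← Fin.ext_iff]
      simp
    have h2 : ∑ v : Fin n, (if (h k).val = v.val then 1 else 0) = 1 := by
      have hk : (h k).val < n := lt_of_lt_of_le (h k).isLt (Nat.succ_le_of_lt k.isLt)
      have : ∀ v : Fin n, ((h k).val = v.val) ↔ ((⟨(h k).val, hk⟩ : Fin n) = v) := by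
        intro v
        rw [Fin.ext_iff]
      simp only [this]
      simp
    rw [h1, h2]
  rw [Finset.sum_congr rfl (fun k _ => this k)]
  simp
  ring

theorem norm_snoc {K n : ℕ} (p : Param K) (h : Hist n) (v : Fin (n + 1)) (l : Fin n → Fin K)
    (j i : Fin K) {m : ℕ} (hm : m ≤ n) :
    norm p (snocH h v) (snocL l j) m i = norm p h l m i := by
  unfold norm
  rw [Fin.sum_univ_castSucc]
  simp only [snocL_castSucc, snocL_last, Fin.val_castSucc, Fin.val_last]
  rw [deg_eq_zero _ hm]
  simp [deg_snoc h v hm]

theorem norm_pos {K n : ℕ} (p : Param K) (h : Hist n) (l : Fin n → Fin K) (m : ℕ) (i : Fin K) :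
    0 < norm p h l m i := by
  unfold norm
  have : 0 ≤ ∑ v : Fin n, p.aff i (l v) * (deg h m v.val : ℝ) :=
    Finset.sum_nonneg fun v _ => mul_nonneg (p.aff_pos _ _).le (Nat.cast_nonneg _)
  linarith [p.aff_pos i i]

theorem tgtLabel_snoc {K n : ℕ} (h : Hist n) (v : Fin (n + 1)) (l : Fin n → Fin K)
    (j : Fin K) (k : Fin n) :
    tgtLabel (snocH h v) (snocL l j) k.castSucc = tgtLabel h l k := by
  unfold tgtLabel
  have : (⟨(snocH h v k.castSucc).val, by
      have := (snocH h v k.castSucc).isLt
      simp at this ⊢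
      omega⟩ : Fin (n + 1)) = (⟨(h k).val, lt_of_lt_of_le (h k).isLt
        (Nat.succ_le_of_lt k.isLt)⟩ : Fin n).castSucc := by
    ext
    simp
  rw [this, snocL_castSucc]

theorem linkProb_snoc {K n : ℕ} (p : Param K) (h : Hist n) (v : Fin (n + 1))
    (l : Fin n → Fin K) (j : Fin K) (k : Fin n) :
    linkProb p (snocH h v) (snocL l j) k.castSucc = linkProb p h l k := by
  unfold linkProb
  rw [snocL_castSucc, snocH_castSucc, tgtLabel_snoc]
  simp only [Fin.val_castSucc]
  rw [norm_snoc p h v l j (l k) k.isLt.le, deg_snoc h v k.isLt.le]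

/-- The weight of a link of the new node `n`, with label `j`, to the node `v`. -/
def wt {K n : ℕ} (p : Param K) (h : Hist n) (l : Fin n → Fin K) (j : Fin K)
    (v : Fin (n + 1)) : ℝ :=
  Fin.snoc (α := fun _ => ℝ) (fun u : Fin n => p.aff j (l u) * (deg h n u.val : ℝ))
    (p.aff j j) v

@[simp] theorem wt_castSucc {K n : ℕ} (p : Param K) (h : Hist n) (l : Fin n → Fin K)
    (j : Fin K) (u : Fin n) : wt p h l j u.castSucc = p.aff j (l u) * (deg h n u.val : ℝ) := by
  simp [wt]

@[simp] theorem wt_last {K n : ℕ} (p : Param K) (h : Hist n) (l : Fin n → Fin K)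
    (j : Fin K) : wt p h l j (Fin.last n) = p.aff j j := by
  simp [wt]

theorem wt_nonneg {K n : ℕ} (p : Param K) (h : Hist n) (l : Fin n → Fin K)
    (j : Fin K) (v : Fin (n + 1)) : 0 ≤ wt p h l j v := by
  induction v using Fin.lastCases with
  | last => simpa using (p.aff_pos j j).le
  | cast u => simpa using mul_nonneg (p.aff_pos _ _).le (Nat.cast_nonneg _)

theorem linkProb_last {K n : ℕ} (p : Param K) (h : Hist n) (v : Fin (n + 1))
    (l : Fin n → Fin K) (j : Fin K) :
    linkProb p (snocH h v) (snocL l j) (Fin.last n) = wt p h l j v / norm p h l n j := by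
  unfold linkProb
  rw [snocL_last]
  simp only [Fin.val_last]
  rw [norm_snoc p h v l j j le_rfl]
  congr 1
  induction v using Fin.lastCases with
  | last => simp
  | cast u =>
    have h1 : ¬ ((snocH h u.castSucc (Fin.last n)).val = n) := by
      have := u.isLt
      simp
      omega
    rw [if_neg h1, wt_castSucc]
    have h2 : tgtLabel (snocH h u.castSucc) (snocL l j) (Fin.last n) = l u := by
      unfold tgtLabel
      have : (⟨(snocH h u.castSucc (Fin.last n)).val, by
          have := u.isLt
          simp⟩ : Fin (n + 1)) = u.castSucc := by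
        ext
        simp
      rw [this, snocL_castSucc]
    rw [h2]
    congr 2
    rw [snocH_last]
    exact deg_snoc h _ le_rfl _

/-- The joint probability, one step. -/
theorem joint_snoc {K n : ℕ} (p : Param K) (h : Hist n) (v : Fin (n + 1))
    (l : Fin n → Fin K) (j : Fin K) :
    joint p (snocH h v) (snocL l j) =
      joint p h l * (p.prob j * (wt p h l j v / norm p h l n j)) := by
  unfold joint
  rw [Fin.prod_univ_castSucc]
  simp only [snocL_castSucc, snocL_last, linkProb_snoc, linkProb_last]

theorem joint_nonneg {K n : ℕ} (p : Param K) (h : Hist n) (l : Fin n → Fin K) :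
    0 ≤ joint p h l := by
  unfold joint
  apply Finset.prod_nonneg
  intro k _
  apply mul_nonneg (p.prob_nonneg _)
  unfold linkProb
  apply div_nonneg _ (norm_pos _ _ _ _ _).le
  split_ifs
  · exact (p.aff_pos _ _).le
  · exact mul_nonneg (p.aff_pos _ _).le (Nat.cast_nonneg _)

theorem sum_wt {K n : ℕ} (p : Param K) (h : Hist n) (l : Fin n → Fin K) (j : Fin K) :
    ∑ v : Fin (n + 1), wt p h l j v = norm p h l n j := by
  rw [Fin.sum_univ_castSucc]
  simp [norm]

/-- Expectation of a function of history and labels. -/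
def Ex {K : ℕ} (p : Param K) (n : ℕ) (F : Hist n → (Fin n → Fin K) → ℝ) : ℝ :=
  ∑ h : Hist n, ∑ l : Fin n → Fin K, joint p h l * F h l

/-- One step of the process. -/
def step {K n : ℕ} (p : Param K) (F : Hist (n + 1) → (Fin (n + 1) → Fin K) → ℝ)
    (h : Hist n) (l : Fin n → Fin K) : ℝ :=
  ∑ j : Fin K, p.prob j * ((∑ v : Fin (n + 1), wt p h l j v * F (snocH h v) (snocL l j))
    / norm p h l n j)

theorem Ex_succ {K n : ℕ} (p : Param K) (F : Hist (n + 1) → (Fin (n + 1) → Fin K) → ℝ) :
    Ex p (n + 1) F = Ex p n (step p F) := by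
  unfold Ex step
  rw [sum_hist_succ]
  apply Finset.sum_congr rfl
  intro h _
  rw [Finset.sum_congr rfl (fun v _ => sum_lab_succ _), Finset.sum_comm]
  apply Finset.sum_congr rfl
  intro l _
  rw [Finset.sum_comm, Finset.mul_sum]
  apply Finset.sum_congr rfl
  intro j _
  rw [Finset.sum_div, Finset.mul_sum, Finset.mul_sum]
  apply Finset.sum_congr rfl
  intro v _
  rw [joint_snoc]
  ring

end

end Pool.Agent.Helper77_PA
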