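import Mathlib

/-!
# The potential and the one-step inequality (statement)
-/

namespace Pool.Agent.Helper77_PA

open Finset

noncomputable section

/-- The size of the perturbation. -/
def th : ℝ := 1 / 1000

/-- The potential: `exp (lam * H^(3/2) / N^2)` with `H = 10000 N + X^2 + X'^2 + Y^2`. -/
def Phi (N X X' Y : ℝ) : ℝ :=
  Real.exp (1 / 10 ^ 9 * ((10000 * N + X ^ 2 + X' ^ 2 + Y ^ 2) *
    Real.sqrt (10000 * N + X ^ 2 + X' ^ 2 + Y ^ 2) / N ^ 2))

/-- The likelihood ratio factor: new label value `s`, target value `t`, mean `ξ`. -/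
def rho (s t ξ : ℝ) : ℝ := (1 + th * s * t) / (1 + th * s * ξ)

/-- The data of one step. `V` is the set of possible targets, `q` their weights under the
reference law, `t`, `t'` the label values in the two replicas; `b v` flags the exceptional
targets (the loop). -/
structure StepData (V : Type) [Fintype V] where
  N : ℝ
  hN : 3 ≤ N
  pr : Fin 2 → ℝ
  s : Fin 2 → ℝ
  hpr : ∀ j, 0 ≤ pr j
  hpr1 : pr 0 + pr 1 = 1
  hs : ∀ j, |s j| ≤ 2
  hs0 : pr 0 * s 0 + pr 1 * s 1 = 0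
  hs1 : pr 0 * s 0 ^ 2 + pr 1 * s 1 ^ 2 = 1
  q : V → ℝ
  t : V → ℝ
  t' : V → ℝ
  b : V → ℝ
  hq : ∀ v, 0 ≤ q v
  hq1 : ∑ v, q v = 1
  ht : ∀ v, |t v| ≤ 2
  ht' : ∀ v, |t' v| ≤ 2
  hb : ∀ v, 0 ≤ b v
  hb1 : ∑ v, q v * b v ≤ 2 / N
  d1 : V → Fin 2 → ℝ
  d2 : V → Fin 2 → ℝ
  d3 : V → Fin 2 → Fin 2 → ℝ
  h1 : ∀ v j, |d1 v j| ≤ 4
  h2 : ∀ v j, |d2 v j| ≤ 4
  h3 : ∀ v i j, |d3 v i j| ≤ 8
  h1b : ∀ v j, |d1 v j - (s j + t v)| ≤ 4 * b v
  h2b : ∀ v j, |d2 v j - (s j + t' v)| ≤ 4 * b v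
  h3b : ∀ v i j, |d3 v i j - (s i * s j + t v * t' v)| ≤ 8 * b v

namespace StepData

variable {V : Type} [Fintype V] (D : StepData V)

/-- Mean of the label value of the target, first replica. -/
def xi : ℝ := ∑ v, D.q v * D.t v

/-- Mean of the label value of the target, second replica. -/
def xi' : ℝ := ∑ v, D.q v * D.t' v

/-- Mean of the product of the label values of the target. -/
def eta : ℝ := ∑ v, D.q v * (D.t v * D.t' v)

/-- The tilted weight. -/
def w (v : V) (i j : Fin 2) : ℝ :=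
  D.q v * (D.pr i * rho (D.s i) (D.t v) D.xi) * (D.pr j * rho (D.s j) (D.t' v) D.xi')

end StepData

/-- The one-step inequality: the potential is a supermartingale for the tilted weights. -/
def OneStepStatement : Prop :=
  ∀ (V : Type) [Fintype V] (D : StepData V),
    ∑ v, ∑ i, ∑ j, D.w v i j *
      Phi (D.N + 2) (D.N * D.xi + D.d1 v i) (D.N * D.xi' + D.d2 v j) (D.N * D.eta + D.d3 v i j)
    ≤ Phi D.N (D.N * D.xi) (D.N * D.xi') (D.N * D.eta)

end

end Pool.Agent.Helper77_PA
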