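import Mathlib
import Pool.Agent.Helper77_PA.Defs
import Pool.Agent.Helper77_PA.OneStepDefs

/-!
# The reference law and the test statistic
-/

namespace Pool.Agent.Helper77_PA

open Finset

noncomputable section

/-- A node that has arrived has degree at least `1`. -/
theorem deg_pos {n : ℕ} (h : Hist n) {m u : ℕ} (hum : u < m) (hmn : m ≤ n) :
    1 ≤ deg h m u := by
  unfold deg
  have hu : u < n := lt_of_lt_of_le hum hmn
  calc 1 ≤ (if (⟨u, hu⟩ : Fin n).val < m then
      (if (⟨u, hu⟩ : Fin n).val = u then 1 else 0) +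
        (if (h ⟨u, hu⟩).val = u then 1 else 0) else 0) := by
        simp [hum]
    _ ≤ _ := Finset.single_le_sum (f := fun k : Fin n => if k.val < m then
        (if k.val = u then 1 else 0) + (if (h k).val = u then 1 else 0) else 0)
        (fun _ _ => Nat.zero_le _) (Finset.mem_univ _)

/-- Normalising constant of the reference law. -/
def refN (n : ℕ) : ℝ := 2 * n + 1 + th

theorem refN_pos (n : ℕ) : 0 < refN n := by
  unfold refN th
  positivity

/-- Weights of the reference law. -/
def refW {n : ℕ} (h : Hist n) (v : Fin (n + 1)) : ℝ :=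
  Fin.snoc (α := fun _ => ℝ) (fun u : Fin n => (deg h n u.val : ℝ)) (1 + th) v

@[simp] theorem refW_castSucc {n : ℕ} (h : Hist n) (u : Fin n) :
    refW h u.castSucc = (deg h n u.val : ℝ) := by
  simp [refW]

@[simp] theorem refW_last {n : ℕ} (h : Hist n) : refW h (Fin.last n) = 1 + th := by
  simp [refW]

theorem refW_pos {n : ℕ} (h : Hist n) (v : Fin (n + 1)) : 0 < refW h v := by
  induction v using Fin.lastCases with
  | last => rw [refW_last]; unfold th; norm_num
  | cast u =>
    rw [refW_castSucc]
    exact_mod_cast deg_pos h u.isLt le_rfl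

theorem sum_deg_real {n : ℕ} (h : Hist n) : ∑ v : Fin n, (deg h n v.val : ℝ) = 2 * n := by
  exact_mod_cast sum_deg h

theorem sum_refW {n : ℕ} (h : Hist n) : ∑ v : Fin (n + 1), refW h v = refN n := by
  rw [Fin.sum_univ_castSucc]
  simp [refN, sum_deg_real]
  ring

/-- The reference law: plain preferential attachment with loop weight `1 + th`. -/
def ref {n : ℕ} (h : Hist n) : ℝ :=
  ∏ k : Fin n, (if (h k).val = k.val then 1 + th else (deg h k.val (h k).val : ℝ)) / refN k.val

theorem ref_snoc {n : ℕ} (h : Hist n) (v : Fin (n + 1)) :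
    ref (snocH h v) = ref h * (refW h v / refN n) := by
  unfold ref
  rw [Fin.prod_univ_castSucc]
  congr 1
  · apply Finset.prod_congr rfl
    intro k _
    rw [snocH_castSucc]
    simp only [Fin.val_castSucc]
    rw [deg_snoc h v k.isLt.le]
  · simp only [Fin.val_last]
    congr 1
    induction v using Fin.lastCases with
    | last => simp
    | cast u =>
      have := u.isLt
      have h1 : ¬ ((snocH h u.castSucc (Fin.last n)).val = n) := by
        simp
        omega
      rw [if_neg h1, refW_castSucc, deg_snoc h _ le_rfl, snocH_last]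
      rfl

theorem ref_zero (h : Hist 0) : ref h = 1 := by
  simp [ref]

theorem ref_pos {n : ℕ} (h : Hist n) : 0 < ref h := by
  unfold ref
  apply Finset.prod_pos
  intro k _
  apply div_pos _ (refN_pos _)
  split_ifs with h1
  · unfold th; norm_num
  · have h2 := (h k).isLt
    have : 1 ≤ deg h k.val (h k).val := deg_pos h (by omega) k.isLt.le
    exact_mod_cast this

/-- Expectation under the reference law. -/
def ExR (n : ℕ) (F : Hist n → ℝ) : ℝ := ∑ h : Hist n, ref h * F h

theorem ExR_succ {n : ℕ} (F : Hist (n + 1) → ℝ) :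
    ExR (n + 1) F = ExR n (fun h => ∑ v : Fin (n + 1), refW h v / refN n * F (snocH h v)) := by
  unfold ExR
  rw [sum_hist_succ]
  apply Finset.sum_congr rfl
  intro h _
  rw [Finset.mul_sum]
  apply Finset.sum_congr rfl
  intro v _
  rw [ref_snoc]
  ring

theorem sum_refW_div {n : ℕ} (h : Hist n) :
    ∑ v : Fin (n + 1), refW h v / refN n = 1 := by
  rw [← Finset.sum_div, sum_refW, div_self (refN_pos n).ne']

theorem ExR_one (n : ℕ) : ExR n (fun _ => 1) = 1 := by
  induction n with
  | zero => simp [ExR, ref_zero]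
  | succ n ih =>
    rw [ExR_succ]
    simp only [mul_one, sum_refW_div]
    exact ih

theorem ExR_mono {n : ℕ} {F G : Hist n → ℝ} (hFG : ∀ h, F h ≤ G h) : ExR n F ≤ ExR n G :=
  Finset.sum_le_sum fun h _ => mul_le_mul_of_nonneg_left (hFG h) (ref_pos h).le

/-- The test statistic for the node `v`: the observed links to `v`, each weighted with the inverse
degree, minus the expected value under the reference law, from step `2` on. -/
def Tst {n : ℕ} (v : ℕ) (h : Hist n) : ℝ :=
  ∑ k : Fin n, if 2 ≤ k.val then
    (if (h k).val = v then 1 / (deg h k.val v : ℝ) else 0) - 1 / refN k.val else 0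

theorem Tst_snoc {n : ℕ} (hn : 2 ≤ n) (v : ℕ) (h : Hist n) (u : Fin (n + 1)) :
    Tst v (snocH h u) =
      Tst v h + ((if u.val = v then 1 / (deg h n v : ℝ) else 0) - 1 / refN n) := by
  unfold Tst
  rw [Fin.sum_univ_castSucc]
  congr 1
  · apply Finset.sum_congr rfl
    intro k _
    simp only [Fin.val_castSucc, snocH_castSucc]
    rw [deg_snoc h u k.isLt.le]
  · simp only [Fin.val_last, snocH_last, hn, if_true]
    rw [deg_snoc h u le_rfl]

theorem Tst_two (v : ℕ) (h : Hist 2) : Tst v h = 0 := by
  unfold Tst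
  apply Finset.sum_eq_zero
  intro k _
  have := k.isLt
  rw [if_neg (by omega)]

/-- Sum over the possible links of an expression that only looks whether the link goes to `v`. -/
theorem sum_link {n : ℕ} (h : Hist n) {v : ℕ} (hv : v < n) (a b : ℝ) :
    ∑ u : Fin (n + 1), refW h u / refN n * (if u.val = v then a else b) =
      (deg h n v : ℝ) / refN n * a + (1 - (deg h n v : ℝ) / refN n) * b := by
  have h1 : ∀ u : Fin (n + 1), refW h u / refN n * (if u.val = v then a else b) =
      refW h u / refN n * b +
        (if u = (⟨v, hv⟩ : Fin n).castSucc then refW h u / refN n * (a - b) else 0) := by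
    intro u
    have : (u.val = v) ↔ u = (⟨v, hv⟩ : Fin n).castSucc := by
      rw [Fin.ext_iff]
      simp
    by_cases hu : u = (⟨v, hv⟩ : Fin n).castSucc
    · rw [if_pos (this.mpr hu), if_pos hu]; ring
    · rw [if_neg (fun hh => hu (this.mp hh)), if_neg hu]; ring
  rw [Finset.sum_congr rfl (fun u _ => h1 u), Finset.sum_add_distrib, ← Finset.sum_mul,
    sum_refW_div]
  simp only [Finset.sum_ite_eq', Finset.mem_univ, if_true, refW_castSucc]
  ring

/-- The test statistic is bounded in mean square under the reference law. -/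
theorem ExR_Tst_sq {v : ℕ} (hv : v < 2) {n : ℕ} (hn : 2 ≤ n) :
    ExR n (fun h => Tst v h ^ 2 + 2 / (deg h n v : ℝ)) ≤ 2 := by
  induction n, hn using Nat.le_induction with
  | base =>
    calc ExR 2 (fun h => Tst v h ^ 2 + 2 / (deg h 2 v : ℝ)) ≤ ExR 2 (fun _ => 2 * 1) := by
          apply ExR_mono
          intro h
          rw [Tst_two]
          have : (1 : ℝ) ≤ (deg h 2 v : ℝ) := by exact_mod_cast deg_pos h hv le_rfl
          have h2 : 2 / (deg h 2 v : ℝ) ≤ 2 := by
            rw [div_le_iff₀ (by linarith)]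
            linarith
          linarith
      _ = 2 * ExR 2 (fun _ => 1) := by
          unfold ExR
          rw [Finset.mul_sum]
          apply Finset.sum_congr rfl
          intro h _
          ring
      _ = 2 := by rw [ExR_one]; ring
  | succ n hn ih =>
    refine le_trans ?_ ih
    rw [ExR_succ]
    apply ExR_mono
    intro h
    have hvn : v < n := by omega
    set d : ℝ := (deg h n v : ℝ) with hd
    have hd1 : (1 : ℝ) ≤ d := by
      rw [hd]
      exact_mod_cast deg_pos h hvn le_rfl
    have hN := refN_pos n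
    have h1 : ∀ u : Fin (n + 1), refW h u / refN n *
        (Tst v (snocH h u) ^ 2 + 2 / (deg (snocH h u) (n + 1) v : ℝ)) =
        refW h u / refN n * (if u.val = v then
          ((Tst v h + (1 / d - 1 / refN n)) ^ 2 + 2 / (d + 1)) else
          ((Tst v h - 1 / refN n) ^ 2 + 2 / d)) := by
      intro u
      rw [Tst_snoc hn, deg_snoc_succ]
      have hnv : n ≠ v := by omega
      by_cases hu : u.val = v
      · simp [hu, hnv, ← hd]
      · simp [hu, hnv, ← hd]
        left
        ring
    rw [Finset.sum_congr rfl (fun u _ => h1 u), sum_link h hvn, ← hd]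
    set T := Tst v h
    set N := refN n
    have hkey : d / N * ((T + (1 / d - 1 / N)) ^ 2 + 2 / (d + 1)) +
        (1 - d / N) * ((T - 1 / N) ^ 2 + 2 / d) =
        T ^ 2 + 2 / d - 1 / N ^ 2 - (d - 1) / (N * d * (d + 1)) := by
      have hd0 : d ≠ 0 := by linarith
      have hd2 : d + 1 ≠ 0 := by linarith
      have hN0 : N ≠ 0 := hN.ne'
      field_simp
      ring
    rw [hkey]
    have : 0 ≤ (d - 1) / (N * d * (d + 1)) := by
      apply div_nonneg
      · linarith
      · positivity
    have h3 : 0 ≤ 1 / N ^ 2 := by positivity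
    linarith

theorem ExR_Tst {v : ℕ} (hv : v < 2) {n : ℕ} (hn : 2 ≤ n) :
    ExR n (fun h => Tst v h ^ 2) ≤ 2 := by
  refine le_trans (ExR_mono fun h => ?_) (ExR_Tst_sq hv hn)
  have : 0 ≤ 2 / (deg h n v : ℝ) := by positivity
  linarith

theorem law_nonneg {K n : ℕ} (p : Param K) (h : Hist n) : 0 ≤ law p h :=
  Finset.sum_nonneg fun l _ => joint_nonneg p h l

/-- The second moment of the likelihood ratio with respect to the reference law. -/
def chi {K : ℕ} (p : Param K) (n : ℕ) : ℝ := ∑ h : Hist n, law p h ^ 2 / ref h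

/-- Cauchy-Schwarz. -/
theorem law_abs_le {K : ℕ} (p : Param K) {n : ℕ} (F : Hist n → ℝ) :
    (∑ h : Hist n, law p h * |F h|) ^ 2 ≤ chi p n * ExR n (fun h => F h ^ 2) := by
  have h1 : ∑ h : Hist n, law p h * |F h| =
      ∑ h : Hist n, (law p h / Real.sqrt (ref h)) * (Real.sqrt (ref h) * |F h|) := by
    apply Finset.sum_congr rfl
    intro h _
    have : Real.sqrt (ref h) ≠ 0 := (Real.sqrt_pos.mpr (ref_pos h)).ne'
    field_simp
  rw [h1]
  refine le_trans (Finset.sum_mul_sq_le_sq_mul_sq _ _ _) (le_of_eq ?_)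
  unfold chi ExR
  congr 1
  · apply Finset.sum_congr rfl
    intro h _
    rw [div_pow, Real.sq_sqrt (ref_pos h).le]
  · apply Finset.sum_congr rfl
    intro h _
    rw [mul_pow, Real.sq_sqrt (ref_pos h).le, sq_abs]

theorem law_Tst_le {K : ℕ} (p : Param K) {v : ℕ} (hv : v < 2) {n : ℕ} (hchi : chi p n ≤ 2)
    (hn : 2 ≤ n) : ∑ h : Hist n, law p h * |Tst v h| ≤ 2 := by
  have h1 := law_abs_le p (fun h : Hist n => Tst v h)
  have h2 := ExR_Tst hv hn
  have h3 : 0 ≤ ExR n (fun h => Tst v h ^ 2) :=
    Finset.sum_nonneg fun h _ => mul_nonneg (ref_pos h).le (sq_nonneg _)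
  have h4 : (∑ h : Hist n, law p h * |Tst v h|) ^ 2 ≤ 4 := by
    nlinarith [hchi]
  nlinarith [sq_nonneg (∑ h : Hist n, law p h * |Tst v h|)]

end

end Pool.Agent.Helper77_PA
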