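import Mathlib
import Pool.Agent.Helper77_PA.Ref

/-!
# The second moment of the likelihood ratio
-/

namespace Pool.Agent.Helper77_PA

open Finset

noncomputable section

theorem step_one {K n : ℕ} (p : Param K) (h : Hist n) (l : Fin n → Fin K) :
    step p (fun _ _ => 1) h l = 1 := by
  unfold step
  simp only [mul_one, sum_wt]
  rw [Finset.sum_congr rfl (fun j _ => by rw [div_self (norm_pos p h l n j).ne', mul_one])]
  exact p.prob_sum

theorem joint_zero {K : ℕ} (p : Param K) (h : Hist 0) (l : Fin 0 → Fin K) : joint p h l = 1 := by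
  simp [joint]

theorem Ex_one {K : ℕ} (p : Param K) (n : ℕ) : Ex p n (fun _ _ => 1) = 1 := by
  induction n with
  | zero => simp [Ex, joint_zero]
  | succ n ih =>
    rw [Ex_succ]
    have : step p (fun (_ : Hist (n + 1)) (_ : Fin (n + 1) → Fin K) => (1 : ℝ)) =
        fun _ _ => 1 := by
      funext h l
      exact step_one p h l
    rw [this]
    exact ih

theorem Ex_law {K : ℕ} (p : Param K) (n : ℕ) (F : Hist n → ℝ) :
    Ex p n (fun h _ => F h) = ∑ h : Hist n, law p h * F h := by
  unfold Ex law
  apply Finset.sum_congr rfl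
  intro h _
  rw [Finset.sum_mul]

theorem sum_law {K : ℕ} (p : Param K) (n : ℕ) : ∑ h : Hist n, law p h = 1 := by
  have := Ex_law p n (fun _ => 1)
  rw [Ex_one] at this
  simpa using this.symm

/-- The balanced parameters. -/
structure Bal (p : Param 2) (s : Fin 2 → ℝ) : Prop where
  haff : ∀ i j, p.aff i j = 1 + th * s i * s j
  hs : ∀ j, |s j| ≤ 2
  hs0 : p.prob 0 * s 0 + p.prob 1 * s 1 = 0
  hs1 : p.prob 0 * s 0 ^ 2 + p.prob 1 * s 1 ^ 2 = 1
  hk : |s 0 + s 1| ≤ 2

namespace Bal

variable {p : Param 2} {s : Fin 2 → ℝ} (B : Bal p s)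

omit B in
theorem prob_add_aux (p : Param 2) : p.prob 0 + p.prob 1 = 1 := by
  have := p.prob_sum
  rwa [Fin.sum_univ_two] at this

include B

theorem prob_add : p.prob 0 + p.prob 1 = 1 := by
  have := p.prob_sum
  rwa [Fin.sum_univ_two] at this

theorem mul_eq : s 0 * s 1 = -1 := by
  have h1 := B.prob_add
  have h2 := B.hs0
  have h3 := B.hs1
  have e1 : p.prob 0 * s 0 ^ 2 + p.prob 1 * (s 0 * s 1) = 0 := by
    linear_combination s 0 * h2
  have e2 : p.prob 0 * (s 0 * s 1) + p.prob 1 * s 1 ^ 2 = 0 := by
    linear_combination s 1 * h2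
  have e3 : (p.prob 0 + p.prob 1) * (s 0 * s 1) = -1 := by linarith
  rw [h1, one_mul] at e3
  exact e3

theorem sq_eq (j : Fin 2) : s j ^ 2 = 1 + (s 0 + s 1) * s j := by
  have := B.mul_eq
  fin_cases j
  · show s 0 ^ 2 = 1 + (s 0 + s 1) * s 0
    linarith
  · show s 1 ^ 2 = 1 + (s 0 + s 1) * s 1
    linarith

end Bal

/-- The label value of the virtual target of a loop. -/
def tstar (s : Fin 2 → ℝ) : ℝ := (s 0 + s 1) / (1 + th)

/-- The label values of the targets. -/
def tv (s : Fin 2 → ℝ) {n : ℕ} (l : Fin n → Fin 2) (v : Fin (n + 1)) : ℝ :=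
  Fin.snoc (α := fun _ => ℝ) (fun u : Fin n => s (l u)) (tstar s) v

@[simp] theorem tv_castSucc (s : Fin 2 → ℝ) {n : ℕ} (l : Fin n → Fin 2) (u : Fin n) :
    tv s l u.castSucc = s (l u) := by simp [tv]

@[simp] theorem tv_last (s : Fin 2 → ℝ) {n : ℕ} (l : Fin n → Fin 2) :
    tv s l (Fin.last n) = tstar s := by simp [tv]

/-- The change of the label-weighted degree sum. -/
def dX (s : Fin 2 → ℝ) {n : ℕ} (l : Fin n → Fin 2) (v : Fin (n + 1)) (j : Fin 2) : ℝ :=
  Fin.snoc (α := fun _ => ℝ) (fun u : Fin n => s j + s (l u)) (2 * s j) v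

@[simp] theorem dX_castSucc (s : Fin 2 → ℝ) {n : ℕ} (l : Fin n → Fin 2) (u : Fin n) (j : Fin 2) :
    dX s l u.castSucc j = s j + s (l u) := by simp [dX]

@[simp] theorem dX_last (s : Fin 2 → ℝ) {n : ℕ} (l : Fin n → Fin 2) (j : Fin 2) :
    dX s l (Fin.last n) j = 2 * s j := by simp [dX]

/-- The change of the overlap. -/
def dY (s : Fin 2 → ℝ) {n : ℕ} (l l' : Fin n → Fin 2) (v : Fin (n + 1)) (i j : Fin 2) : ℝ :=
  Fin.snoc (α := fun _ => ℝ) (fun u : Fin n => s i * s j + s (l u) * s (l' u))
    (2 * (s i * s j)) v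

@[simp] theorem dY_castSucc (s : Fin 2 → ℝ) {n : ℕ} (l l' : Fin n → Fin 2) (u : Fin n)
    (i j : Fin 2) : dY s l l' u.castSucc i j = s i * s j + s (l u) * s (l' u) := by simp [dY]

@[simp] theorem dY_last (s : Fin 2 → ℝ) {n : ℕ} (l l' : Fin n → Fin 2) (i j : Fin 2) :
    dY s l l' (Fin.last n) i j = 2 * (s i * s j) := by simp [dY]

/-- Flag of the loop. -/
def bv {n : ℕ} (v : Fin (n + 1)) : ℝ := Fin.snoc (α := fun _ => ℝ) (fun _ : Fin n => 0) 1 v

@[simp] theorem bv_castSucc {n : ℕ} (u : Fin n) : bv u.castSucc = 0 := by simp [bv]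

@[simp] theorem bv_last {n : ℕ} : bv (Fin.last n) = 1 := by simp [bv]

theorem th_pos : 0 < th := by unfold th; norm_num

/-- The step data of the pair of replicas. -/
def mkData {p : Param 2} {s : Fin 2 → ℝ} (B : Bal p s) {n : ℕ} (hn : 1 ≤ n) (h : Hist n)
    (l l' : Fin n → Fin 2) : StepData (Fin (n + 1)) where
  N := refN n
  hN := by
    have : (1 : ℝ) ≤ n := by exact_mod_cast hn
    have := th_pos
    unfold refN
    linarith
  pr := p.prob
  s := s
  hpr := p.prob_nonneg
  hpr1 := B.prob_add
  hs := B.hs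
  hs0 := B.hs0
  hs1 := B.hs1
  q := fun v => refW h v / refN n
  t := tv s l
  t' := tv s l'
  b := bv
  hq := fun v => (div_pos (refW_pos h v) (refN_pos n)).le
  hq1 := sum_refW_div h
  ht := by
    intro v
    induction v using Fin.lastCases with
    | last =>
      rw [tv_last]
      unfold tstar
      have h1 := th_pos
      rw [abs_div, abs_of_pos (show 0 < 1 + th by linarith), div_le_iff₀ (by linarith)]
      have := B.hk
      nlinarith
    | cast u => simpa using B.hs (l u)
  ht' := by
    intro v
    induction v using Fin.lastCases with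
    | last =>
      rw [tv_last]
      unfold tstar
      have h1 := th_pos
      rw [abs_div, abs_of_pos (show 0 < 1 + th by linarith), div_le_iff₀ (by linarith)]
      have := B.hk
      nlinarith
    | cast u => simpa using B.hs (l' u)
  hb := by
    intro v
    induction v using Fin.lastCases with
    | last => simp
    | cast u => simp
  hb1 := by
    rw [Fin.sum_univ_castSucc]
    simp only [bv_castSucc, mul_zero, Finset.sum_const_zero, bv_last, mul_one, zero_add,
      refW_last]
    have : 1 + th ≤ 2 := by unfold th; norm_num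
    exact div_le_div_of_nonneg_right this (refN_pos n).le
  d1 := dX s l
  d2 := dX s l'
  d3 := dY s l l'
  h1 := by
    intro v j
    have hj := abs_le.mp (B.hs j)
    induction v using Fin.lastCases with
    | last =>
      rw [dX_last, abs_le]
      constructor <;> linarith [hj.1, hj.2]
    | cast u =>
      have hu := abs_le.mp (B.hs (l u))
      rw [dX_castSucc, abs_le]
      constructor <;> linarith [hj.1, hj.2, hu.1, hu.2]
  h2 := by
    intro v j
    have hj := abs_le.mp (B.hs j)
    induction v using Fin.lastCases with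
    | last =>
      rw [dX_last, abs_le]
      constructor <;> linarith [hj.1, hj.2]
    | cast u =>
      have hu := abs_le.mp (B.hs (l' u))
      rw [dX_castSucc, abs_le]
      constructor <;> linarith [hj.1, hj.2, hu.1, hu.2]
  h3 := by
    intro v i j
    have hij : |s i * s j| ≤ 4 := by
      rw [abs_mul]
      have := B.hs i
      have := B.hs j
      nlinarith [abs_nonneg (s i), abs_nonneg (s j)]
    have hij' := abs_le.mp hij
    induction v using Fin.lastCases with
    | last =>
      rw [dY_last, abs_le]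
      constructor <;> linarith [hij'.1, hij'.2]
    | cast u =>
      have hu : |s (l u) * s (l' u)| ≤ 4 := by
        rw [abs_mul]
        have := B.hs (l u)
        have := B.hs (l' u)
        nlinarith [abs_nonneg (s (l u)), abs_nonneg (s (l' u))]
      have hu' := abs_le.mp hu
      rw [dY_castSucc, abs_le]
      constructor <;> linarith [hij'.1, hij'.2, hu'.1, hu'.2]
  h1b := by
    intro v j
    have hj := abs_le.mp (B.hs j)
    induction v using Fin.lastCases with
    | last =>
      rw [dX_last, tv_last, bv_last]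
      have h1 := th_pos
      have ht : |tstar s| ≤ 2 := by
        unfold tstar
        rw [abs_div, abs_of_pos (show 0 < 1 + th by linarith), div_le_iff₀ (by linarith)]
        have := B.hk
        nlinarith
      have ht' := abs_le.mp ht
      rw [abs_le]
      constructor <;> linarith [hj.1, hj.2, ht'.1, ht'.2]
    | cast u => simp
  h2b := by
    intro v j
    have hj := abs_le.mp (B.hs j)
    induction v using Fin.lastCases with
    | last =>
      rw [dX_last, tv_last, bv_last]
      have h1 := th_pos
      have ht : |tstar s| ≤ 2 := by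
        unfold tstar
        rw [abs_div, abs_of_pos (show 0 < 1 + th by linarith), div_le_iff₀ (by linarith)]
        have := B.hk
        nlinarith
      have ht' := abs_le.mp ht
      rw [abs_le]
      constructor <;> linarith [hj.1, hj.2, ht'.1, ht'.2]
    | cast u => simp
  h3b := by
    intro v i j
    have hij : |s i * s j| ≤ 4 := by
      rw [abs_mul]
      have := B.hs i
      have := B.hs j
      nlinarith [abs_nonneg (s i), abs_nonneg (s j)]
    have hij' := abs_le.mp hij
    induction v using Fin.lastCases with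
    | last =>
      rw [dY_last, tv_last, tv_last, bv_last]
      have h1 := th_pos
      have ht : |tstar s| ≤ 2 := by
        unfold tstar
        rw [abs_div, abs_of_pos (show 0 < 1 + th by linarith), div_le_iff₀ (by linarith)]
        have := B.hk
        nlinarith
      have ht2 : |tstar s * tstar s| ≤ 4 := by
        rw [abs_mul]
        nlinarith [abs_nonneg (tstar s)]
      have ht' := abs_le.mp ht2
      rw [abs_le]
      constructor <;> linarith [hij'.1, hij'.2, ht'.1, ht'.2]
    | cast u => simp

/-- The label-weighted degree sum, with the virtual loop target. -/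
def Xh (s : Fin 2 → ℝ) {n : ℕ} (h : Hist n) (l : Fin n → Fin 2) : ℝ :=
  (∑ u : Fin n, (deg h n u.val : ℝ) * s (l u)) + (s 0 + s 1)

/-- The overlap, with the virtual loop target. -/
def Yh (s : Fin 2 → ℝ) {n : ℕ} (h : Hist n) (l l' : Fin n → Fin 2) : ℝ :=
  (∑ u : Fin n, (deg h n u.val : ℝ) * (s (l u) * s (l' u))) + (s 0 + s 1) ^ 2 / (1 + th)

section

variable {p : Param 2} {s : Fin 2 → ℝ} (B : Bal p s) {n : ℕ} (hn : 1 ≤ n) (h : Hist n)
    (l l' : Fin n → Fin 2)

theorem N_mul_xi : refN n * (mkData B hn h l l').xi = Xh s h l := by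
  unfold StepData.xi Xh
  show refN n * ∑ v, refW h v / refN n * tv s l v = _
  rw [Finset.mul_sum, Fin.sum_univ_castSucc]
  have hN := (refN_pos n).ne'
  have h1 : (1 + th) ≠ 0 := by have := th_pos; linarith
  congr 1
  · apply Finset.sum_congr rfl
    intro u _
    rw [refW_castSucc, tv_castSucc]
    field_simp
  · rw [refW_last, tv_last]
    unfold tstar
    field_simp

theorem N_mul_xi' : refN n * (mkData B hn h l l').xi' = Xh s h l' := by
  unfold StepData.xi' Xh
  show refN n * ∑ v, refW h v / refN n * tv s l' v = _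
  rw [Finset.mul_sum, Fin.sum_univ_castSucc]
  have hN := (refN_pos n).ne'
  have h1 : (1 + th) ≠ 0 := by have := th_pos; linarith
  congr 1
  · apply Finset.sum_congr rfl
    intro u _
    rw [refW_castSucc, tv_castSucc]
    field_simp
  · rw [refW_last, tv_last]
    unfold tstar
    field_simp

theorem N_mul_eta : refN n * (mkData B hn h l l').eta = Yh s h l l' := by
  unfold StepData.eta Yh
  show refN n * ∑ v, refW h v / refN n * (tv s l v * tv s l' v) = _
  rw [Finset.mul_sum, Fin.sum_univ_castSucc]
  have hN := (refN_pos n).ne'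
  have h1 : (1 + th) ≠ 0 := by have := th_pos; linarith
  congr 1
  · apply Finset.sum_congr rfl
    intro u _
    rw [refW_castSucc, tv_castSucc, tv_castSucc]
    field_simp
  · rw [refW_last, tv_last, tv_last]
    unfold tstar
    field_simp

/-- The degree-weighted sum of a function of the labels after one step. -/
theorem sum_deg_snoc (f : Fin n → ℝ) (c : ℝ) (v : Fin (n + 1)) :
    ∑ u : Fin (n + 1), (deg (snocH h v) (n + 1) u.val : ℝ) *
      Fin.snoc (α := fun _ => ℝ) f c u =
    (∑ u : Fin n, (deg h n u.val : ℝ) * f u) +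
      Fin.snoc (α := fun _ => ℝ) (fun u : Fin n => c + f u) (2 * c) v := by
  rw [Fin.sum_univ_castSucc]
  simp only [Fin.snoc_castSucc, Fin.snoc_last, Fin.val_castSucc, Fin.val_last, deg_snoc_succ]
  rw [deg_eq_zero h le_rfl]
  have h1 : ∀ u : Fin n, ((deg h n u.val + ((if n = u.val then 1 else 0) +
      (if v.val = u.val then 1 else 0)) : ℕ) : ℝ) * f u =
      (deg h n u.val : ℝ) * f u + (if v.val = u.val then f u else 0) := by
    intro u
    have : ¬ (n = u.val) := by
      have := u.isLt
      omega
    rw [if_neg this]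
    split_ifs <;> push_cast <;> ring
  rw [Finset.sum_congr rfl (fun u _ => h1 u), Finset.sum_add_distrib, add_assoc]
  congr 1
  induction v using Fin.lastCases with
  | last =>
    have h2 : ∑ u : Fin n, (if (Fin.last n).val = u.val then f u else 0) = 0 := by
      apply Finset.sum_eq_zero
      intro u _
      have := u.isLt
      rw [if_neg]
      simp
      omega
    rw [h2, Fin.snoc_last]
    simp
  | cast w =>
    have h2 : ∑ u : Fin n, (if (w.castSucc).val = u.val then f u else 0) = f w := by
      simp only [Fin.val_castSucc, ← Fin.ext_iff]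
      simp
    rw [h2, Fin.snoc_castSucc]
    have : ¬ ((w.castSucc).val = n) := by
      have := w.isLt
      simp
      omega
    rw [if_neg this]
    simp
    ring

theorem Xh_snoc (s : Fin 2 → ℝ) (v : Fin (n + 1)) (j : Fin 2) :
    Xh s (snocH h v) (snocL l j) = Xh s h l + dX s l v j := by
  unfold Xh dX
  have h1 : ∀ u : Fin (n + 1), s (snocL l j u) =
      Fin.snoc (α := fun _ => ℝ) (fun u => s (l u)) (s j) u := by
    intro u
    induction u using Fin.lastCases with
    | last => simp
    | cast w => simp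
  simp only [h1]
  rw [sum_deg_snoc h (fun u => s (l u)) (s j) v]
  ring

theorem Yh_snoc (s : Fin 2 → ℝ) (v : Fin (n + 1)) (i j : Fin 2) :
    Yh s (snocH h v) (snocL l i) (snocL l' j) = Yh s h l l' + dY s l l' v i j := by
  unfold Yh dY
  have h1 : ∀ u : Fin (n + 1), s (snocL l i u) * s (snocL l' j u) =
      Fin.snoc (α := fun _ => ℝ) (fun u => s (l u) * s (l' u)) (s i * s j) u := by
    intro u
    induction u using Fin.lastCases with
    | last => simp
    | cast w => simp
  simp only [h1]
  rw [sum_deg_snoc h (fun u => s (l u) * s (l' u)) (s i * s j) v]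
  ring

include B in
/-- The likelihood ratio of one step. -/
theorem wt_div (x : ℝ) (hx : refN n * x = Xh s h l) (j : Fin 2) (v : Fin (n + 1)) :
    wt p h l j v / norm p h l n j = refW h v / refN n * rho (s j) (tv s l v) x := by
  have hN := (refN_pos n).ne'
  have hnorm : norm p h l n j = refN n * (1 + th * s j * x) := by
    unfold norm
    simp only [B.haff]
    have e1 : ∑ v : Fin n, (1 + th * s j * s (l v)) * (deg h n v.val : ℝ) =
        (∑ v : Fin n, (deg h n v.val : ℝ)) +
          th * s j * ∑ v : Fin n, (deg h n v.val : ℝ) * s (l v) := by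
      rw [Finset.mul_sum, ← Finset.sum_add_distrib]
      apply Finset.sum_congr rfl
      intro v _
      ring
    rw [e1, sum_deg_real]
    have e2 : ∑ v : Fin n, (deg h n v.val : ℝ) * s (l v) = refN n * x - (s 0 + s 1) := by
      rw [hx]
      unfold Xh
      ring
    rw [e2]
    have e3 := B.sq_eq j
    unfold refN
    linear_combination th * e3
  have hn0 := (norm_pos p h l n j).ne'
  rw [hnorm] at hn0 ⊢
  have hD : (1 + th * s j * x) ≠ 0 := fun hh => hn0 (by rw [hh, mul_zero])
  have hw : wt p h l j v = refW h v * (1 + th * s j * tv s l v) := by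
    induction v using Fin.lastCases with
    | last =>
      rw [wt_last, refW_last, tv_last, B.haff]
      unfold tstar
      have h1 : (1 + th) ≠ 0 := by have := th_pos; linarith
      have e3 := B.sq_eq j
      field_simp
      linear_combination th * e3
    | cast u =>
      rw [wt_castSucc, refW_castSucc, tv_castSucc, B.haff]
      ring
  rw [hw]
  unfold rho
  field_simp

end

/-- The second moment with the potential. -/
def SM (p : Param 2) (s : Fin 2 → ℝ) (n : ℕ) : ℝ :=
  ∑ h : Hist n, ∑ l : Fin n → Fin 2, ∑ l' : Fin n → Fin 2,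
    joint p h l * joint p h l' / ref h * Phi (refN n) (Xh s h l) (Xh s h l') (Yh s h l l')

theorem refN_succ (n : ℕ) : refN (n + 1) = refN n + 2 := by
  unfold refN
  push_cast
  ring

theorem SM_succ_le (h1 : OneStepStatement) {p : Param 2} {s : Fin 2 → ℝ} (B : Bal p s) {n : ℕ}
    (hn : 1 ≤ n) : SM p s (n + 1) ≤ SM p s n := by
  unfold SM
  rw [sum_hist_succ]
  apply Finset.sum_le_sum
  intro h _
  have e1 : ∀ v : Fin (n + 1), ∑ l : Fin (n + 1) → Fin 2, ∑ l' : Fin (n + 1) → Fin 2,
      joint p (snocH h v) l * joint p (snocH h v) l' / ref (snocH h v) *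
        Phi (refN (n + 1)) (Xh s (snocH h v) l) (Xh s (snocH h v) l') (Yh s (snocH h v) l l') =
      ∑ l : Fin n → Fin 2, ∑ l' : Fin n → Fin 2, joint p h l * joint p h l' / ref h *
        ∑ i : Fin 2, ∑ j : Fin 2, (mkData B hn h l l').w v i j *
          Phi (refN n + 2) (Xh s h l + dX s l v i) (Xh s h l' + dX s l' v j)
            (Yh s h l l' + dY s l l' v i j) := by
    intro v
    rw [sum_lab_succ]
    apply Finset.sum_congr rfl
    intro l _
    rw [Finset.sum_congr rfl (fun i _ => sum_lab_succ _), Finset.sum_comm]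
    apply Finset.sum_congr rfl
    intro l' _
    rw [Finset.mul_sum]
    apply Finset.sum_congr rfl
    intro i _
    rw [Finset.mul_sum]
    apply Finset.sum_congr rfl
    intro j _
    rw [joint_snoc, joint_snoc, ref_snoc, Xh_snoc, Xh_snoc, Yh_snoc, refN_succ,
      wt_div B h l _ (N_mul_xi B hn h l l') i v, wt_div B h l' _ (N_mul_xi' B hn h l l') j v]
    have hr := (ref_pos h).ne'
    have hW := (refW_pos h v).ne'
    have hN := (refN_pos n).ne'
    have hw : (mkData B hn h l l').w v i j = refW h v / refN n *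
        (p.prob i * rho (s i) (tv s l v) (mkData B hn h l l').xi) *
        (p.prob j * rho (s j) (tv s l' v) (mkData B hn h l l').xi') := rfl
    rw [hw]
    field_simp
  rw [Finset.sum_congr rfl (fun v _ => e1 v), Finset.sum_comm]
  apply Finset.sum_le_sum
  intro l _
  rw [Finset.sum_comm]
  apply Finset.sum_le_sum
  intro l' _
  rw [← Finset.mul_sum]
  apply mul_le_mul_of_nonneg_left
  · have := h1 (Fin (n + 1)) (mkData B hn h l l')
    have eN : (mkData B hn h l l').N = refN n := rfl
    rw [eN, N_mul_xi, N_mul_xi', N_mul_eta] at this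
    exact this
  · exact div_nonneg (mul_nonneg (joint_nonneg _ _ _) (joint_nonneg _ _ _)) (ref_pos h).le

theorem one_le_Phi (N X X' Y : ℝ) (hN : 0 ≤ N) : 1 ≤ Phi N X X' Y := by
  unfold Phi
  apply Real.one_le_exp
  positivity

theorem chi_le_SM (p : Param 2) (s : Fin 2 → ℝ) (n : ℕ) : chi p n ≤ SM p s n := by
  unfold chi SM
  apply Finset.sum_le_sum
  intro h _
  unfold law
  rw [sq, Finset.sum_mul_sum, Finset.sum_div]
  apply Finset.sum_le_sum
  intro l _
  rw [Finset.sum_div]
  apply Finset.sum_le_sum
  intro l' _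
  have h1 := one_le_Phi (refN n) (Xh s h l) (Xh s h l') (Yh s h l l') (refN_pos n).le
  have h2 : 0 ≤ joint p h l * joint p h l' / ref h :=
    div_nonneg (mul_nonneg (joint_nonneg _ _ _) (joint_nonneg _ _ _)) (ref_pos h).le
  nlinarith

theorem Phi_le_of_abs {X X' Y : ℝ} (hX : |X| ≤ 6) (hX' : |X'| ≤ 6) (hY : |Y| ≤ 12) :
    Phi (refN 1) X X' Y ≤ 1001 / 1000 := by
  have hN : refN 1 = 3 + 1 / 1000 := by
    unfold refN th
    norm_num
  rw [hN]
  unfold Phi
  have h1 : X ^ 2 ≤ 36 := by
    rw [← sq_abs]
    nlinarith [abs_nonneg X]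
  have h2 : X' ^ 2 ≤ 36 := by
    rw [← sq_abs]
    nlinarith [abs_nonneg X']
  have h3 : Y ^ 2 ≤ 144 := by
    rw [← sq_abs]
    nlinarith [abs_nonneg Y]
  set H : ℝ := 10000 * (3 + 1 / 1000) + X ^ 2 + X' ^ 2 + Y ^ 2 with hH
  have hH1 : H ≤ 40000 := by
    rw [hH]
    linarith
  have hH0 : 0 ≤ H := by positivity
  have hs : Real.sqrt H ≤ 200 := by
    rw [Real.sqrt_le_left (by norm_num)]
    linarith
  have hs0 := Real.sqrt_nonneg H
  have hHs : H * Real.sqrt H ≤ 8000000 := by nlinarith
  have hx : 1 / 10 ^ 9 * (H * Real.sqrt H / (3 + 1 / 1000) ^ 2) ≤ 9 / 10000 := by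
    have : H * Real.sqrt H / (3 + 1 / 1000) ^ 2 ≤ 900000 := by
      rw [div_le_iff₀ (by norm_num)]
      linarith
    linarith
  calc Real.exp (1 / 10 ^ 9 * (H * Real.sqrt H / (3 + 1 / 1000) ^ 2))
      ≤ Real.exp (9 / 10000) := Real.exp_le_exp.mpr hx
    _ ≤ 1001 / 1000 := by
      have := Real.abs_exp_sub_one_sub_id_le (x := 9 / 10000) (by norm_num [abs_of_pos])
      have := (abs_le.mp this).2
      nlinarith

theorem abs_Xh_le {s : Fin 2 → ℝ} (hs : ∀ j, |s j| ≤ 2) (hk : |s 0 + s 1| ≤ 2) {n : ℕ}
    (h : Hist n) (l : Fin n → Fin 2) : |Xh s h l| ≤ 4 * n + 2 := by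
  unfold Xh
  refine le_trans (abs_add_le _ _) ?_
  have : |∑ u : Fin n, (deg h n u.val : ℝ) * s (l u)| ≤ 4 * n := by
    refine le_trans (Finset.abs_sum_le_sum_abs _ _) ?_
    calc ∑ u : Fin n, |(deg h n u.val : ℝ) * s (l u)|
        ≤ ∑ u : Fin n, (deg h n u.val : ℝ) * 2 := by
          apply Finset.sum_le_sum
          intro u _
          rw [abs_mul, abs_of_nonneg (Nat.cast_nonneg _)]
          exact mul_le_mul_of_nonneg_left (hs _) (Nat.cast_nonneg _)
      _ = 4 * n := by
          rw [← Finset.sum_mul, sum_deg_real]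
          ring
  linarith

theorem abs_Yh_le {s : Fin 2 → ℝ} (hs : ∀ j, |s j| ≤ 2) (hk : |s 0 + s 1| ≤ 2) {n : ℕ}
    (h : Hist n) (l l' : Fin n → Fin 2) : |Yh s h l l'| ≤ 8 * n + 4 := by
  unfold Yh
  refine le_trans (abs_add_le _ _) ?_
  have h1 : |∑ u : Fin n, (deg h n u.val : ℝ) * (s (l u) * s (l' u))| ≤ 8 * n := by
    refine le_trans (Finset.abs_sum_le_sum_abs _ _) ?_
    calc ∑ u : Fin n, |(deg h n u.val : ℝ) * (s (l u) * s (l' u))|
        ≤ ∑ u : Fin n, (deg h n u.val : ℝ) * 4 := by
          apply Finset.sum_le_sum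
          intro u _
          rw [abs_mul, abs_of_nonneg (Nat.cast_nonneg _), abs_mul]
          apply mul_le_mul_of_nonneg_left _ (Nat.cast_nonneg _)
          have := hs (l u)
          have := hs (l' u)
          nlinarith [abs_nonneg (s (l u)), abs_nonneg (s (l' u))]
      _ = 8 * n := by
          rw [← Finset.sum_mul, sum_deg_real]
          ring
  have h2 : |(s 0 + s 1) ^ 2 / (1 + th)| ≤ 4 := by
    have := th_pos
    rw [abs_div, abs_of_pos (show 0 < 1 + th by linarith), div_le_iff₀ (by linarith), abs_pow]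
    nlinarith [abs_nonneg (s 0 + s 1)]
  linarith

instance : Unique (Hist 1) where
  default := fun k => ⟨0, Nat.succ_pos _⟩
  uniq := by
    intro h
    funext k
    apply Fin.ext
    have h1 := (h k).isLt
    have h2 := k.isLt
    show (h k).val = 0
    omega

theorem chi_one (p : Param 2) : chi p 1 = 1 := by
  unfold chi
  rw [Fintype.sum_unique]
  have h1 := sum_law p 1
  rw [Fintype.sum_unique] at h1
  have h2 := ExR_one 1
  unfold ExR at h2
  rw [Fintype.sum_unique, mul_one] at h2
  rw [h1, h2]
  norm_num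

theorem SM_one_le {p : Param 2} {s : Fin 2 → ℝ} (B : Bal p s) : SM p s 1 ≤ 1001 / 1000 := by
  have h1 : SM p s 1 ≤ chi p 1 * (1001 / 1000) := by
    unfold SM chi
    rw [Finset.sum_mul]
    apply Finset.sum_le_sum
    intro h _
    unfold law
    rw [sq, Finset.sum_mul_sum, Finset.sum_div, Finset.sum_mul]
    apply Finset.sum_le_sum
    intro l _
    rw [Finset.sum_div, Finset.sum_mul]
    apply Finset.sum_le_sum
    intro l' _
    apply mul_le_mul_of_nonneg_left
    · apply Phi_le_of_abs
      · have := abs_Xh_le B.hs B.hk h l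
        norm_num at this
        linarith
      · have := abs_Xh_le B.hs B.hk h l'
        norm_num at this
        linarith
      · have := abs_Yh_le B.hs B.hk h l l'
        norm_num at this
        linarith
    · exact div_nonneg (mul_nonneg (joint_nonneg _ _ _) (joint_nonneg _ _ _)) (ref_pos h).le
  rw [chi_one] at h1
  linarith

theorem SM_le (h1 : OneStepStatement) {p : Param 2} {s : Fin 2 → ℝ} (B : Bal p s) {n : ℕ}
    (hn : 1 ≤ n) : SM p s n ≤ 1001 / 1000 := by
  induction n, hn using Nat.le_induction with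
  | base => exact SM_one_le B
  | succ n hn ih => exact le_trans (SM_succ_le h1 B hn) ih

theorem chi_le (h1 : OneStepStatement) {p : Param 2} {s : Fin 2 → ℝ} (B : Bal p s) {n : ℕ}
    (hn : 1 ≤ n) : chi p n ≤ 1001 / 1000 :=
  le_trans (chi_le_SM p s n) (SM_le h1 B hn)

end

end Pool.Agent.Helper77_PA
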