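import Mathlib
import Pool.Agent.Helper77_PA.Second

/-!
# One-step computations for two communities
-/

namespace Pool.Agent.Helper77_PA

open Finset

noncomputable section

/-- Indicator of the event that node `0` has label `0` and node `1` has label `1`. -/
def indA {n : ℕ} (l : Fin n → Fin 2) : ℝ := by
  classical
  exact if ∃ h : 1 < n, l ⟨0, by omega⟩ = 0 ∧ l ⟨1, h⟩ = 1 then 1 else 0

theorem indA_snoc {n : ℕ} (hn : 2 ≤ n) (l : Fin n → Fin 2) (j : Fin 2) :
    indA (snocL l j) = indA l := by
  unfold indA
  have h0 : ∀ h : 1 < n + 1, snocL l j ⟨0, by omega⟩ = l ⟨0, by omega⟩ := by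
    intro h
    exact snocL_castSucc l j ⟨0, by omega⟩
  have h1 : ∀ h : 1 < n + 1, snocL l j ⟨1, h⟩ = l ⟨1, by omega⟩ := by
    intro h
    exact snocL_castSucc l j ⟨1, by omega⟩
  have : (∃ h : 1 < n + 1, snocL l j ⟨0, by omega⟩ = 0 ∧ snocL l j ⟨1, h⟩ = 1) ↔
      (∃ h : 1 < n, l ⟨0, by omega⟩ = 0 ∧ l ⟨1, h⟩ = 1) := by
    constructor
    · rintro ⟨h, ha, hb⟩
      exact ⟨by omega, by rw [← h0 h]; exact ha, by rw [← h1 h]; exact hb⟩
    · rintro ⟨h, ha, hb⟩
      exact ⟨by omega, by rw [h0 (by omega)]; exact ha, by rw [h1 (by omega)]; exact hb⟩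
  simp only [this]

theorem indA_nonneg {n : ℕ} (l : Fin n → Fin 2) : 0 ≤ indA l := by
  unfold indA
  split_ifs <;> norm_num

theorem indA_le_one {n : ℕ} (l : Fin n → Fin 2) : indA l ≤ 1 := by
  unfold indA
  split_ifs <;> norm_num

theorem indA_label {n : ℕ} {l : Fin n → Fin 2} (h : indA l ≠ 0) {v : ℕ} (hv : v < 2)
    (hvn : v < n) : l ⟨v, hvn⟩ = ⟨v, hv⟩ := by
  unfold indA at h
  split_ifs at h with h1
  · obtain ⟨h2, h3, h4⟩ := h1
    interval_cases v
    · exact h3
    · exact h4
  · exact absurd rfl h

/-- The summed degree of the nodes with label `i`. -/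
def S {n : ℕ} (h : Hist n) (l : Fin n → Fin 2) (i : Fin 2) : ℝ :=
  ∑ u : Fin n, (deg h n u.val : ℝ) * (if l u = i then 1 else 0)

theorem S_nonneg {n : ℕ} (h : Hist n) (l : Fin n → Fin 2) (i : Fin 2) : 0 ≤ S h l i := by
  unfold S
  apply Finset.sum_nonneg
  intro u _
  split_ifs <;> simp

theorem S_add {n : ℕ} (h : Hist n) (l : Fin n → Fin 2) : S h l 0 + S h l 1 = 2 * n := by
  unfold S
  rw [← Finset.sum_add_distrib, ← sum_deg_real h]
  apply Finset.sum_congr rfl
  intro u _
  have : l u = 0 ∨ l u = 1 := by
    generalize l u = a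
    fin_cases a <;> simp
  rcases this with h1 | h1 <;> simp [h1]

theorem norm_eq {n : ℕ} (p : Param 2) (h : Hist n) (l : Fin n → Fin 2) (j : Fin 2) :
    norm p h l n j = p.aff j 0 * S h l 0 + p.aff j 1 * S h l 1 + p.aff j j := by
  unfold norm S
  rw [Finset.mul_sum, Finset.mul_sum, ← Finset.sum_add_distrib]
  congr 1
  apply Finset.sum_congr rfl
  intro u _
  have : l u = 0 ∨ l u = 1 := by
    generalize l u = a
    fin_cases a <;> simp
  rcases this with h1 | h1 <;> simp [h1]

theorem S_snoc {n : ℕ} (h : Hist n) (l : Fin n → Fin 2) (v : Fin (n + 1)) (i j : Fin 2) :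
    S (snocH h v) (snocL l j) i = S h l i + (if j = i then 1 else 0) +
      (if snocL l j v = i then 1 else 0) := by
  unfold S
  have h1 : ∀ u : Fin (n + 1), (if snocL l j u = i then (1 : ℝ) else 0) =
      Fin.snoc (α := fun _ => ℝ) (fun u => if l u = i then (1 : ℝ) else 0)
        (if j = i then 1 else 0) u := by
    intro u
    induction u using Fin.lastCases with
    | last => simp
    | cast w => simp
  simp only [h1]
  rw [sum_deg_snoc h (fun u => if l u = i then (1 : ℝ) else 0) (if j = i then 1 else 0) v]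
  rw [add_assoc]
  congr 1
  induction v using Fin.lastCases with
  | last =>
    simp only [Fin.snoc_last]
    split_ifs <;> norm_num
  | cast w => simp

/-- The probability of a link to a node of label `i`, divided by its degree. -/
def comp {n : ℕ} (p : Param 2) (h : Hist n) (l : Fin n → Fin 2) (i : Fin 2) : ℝ :=
  ∑ j : Fin 2, p.prob j * (p.aff j i / norm p h l n j)

/-- The probability of a loop. -/
def loopP {n : ℕ} (p : Param 2) (h : Hist n) (l : Fin n → Fin 2) : ℝ :=
  ∑ j : Fin 2, p.prob j * (p.aff j j / norm p h l n j)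

/-- Additivity of the one-step operator for a constant plus a function. -/
theorem step_const_add {n : ℕ} (p : Param 2) (h : Hist n) (l : Fin n → Fin 2) (c : ℝ)
    (F : Hist (n + 1) → (Fin (n + 1) → Fin 2) → ℝ) :
    step p (fun h' l' => c + F h' l') h l = c + step p F h l := by
  unfold step
  have h1 : ∀ j : Fin 2, p.prob j * ((∑ v : Fin (n + 1), wt p h l j v *
      (c + F (snocH h v) (snocL l j))) / norm p h l n j) =
      p.prob j * c + p.prob j * ((∑ v : Fin (n + 1), wt p h l j v *
        F (snocH h v) (snocL l j)) / norm p h l n j) := by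
    intro j
    have : ∑ v : Fin (n + 1), wt p h l j v * (c + F (snocH h v) (snocL l j)) =
        norm p h l n j * c + ∑ v : Fin (n + 1), wt p h l j v * F (snocH h v) (snocL l j) := by
      rw [← sum_wt, Finset.sum_mul, ← Finset.sum_add_distrib]
      apply Finset.sum_congr rfl
      intro v _
      ring
    rw [this]
    have hN := (norm_pos p h l n j).ne'
    field_simp
  rw [Finset.sum_congr rfl (fun j _ => h1 j), Finset.sum_add_distrib, ← Finset.sum_mul,
    p.prob_sum, one_mul]

theorem step_mul {n : ℕ} (p : Param 2) (h : Hist n) (l : Fin n → Fin 2) (c : ℝ)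
    (F : Hist (n + 1) → (Fin (n + 1) → Fin 2) → ℝ) :
    step p (fun h' l' => c * F h' l') h l = c * step p F h l := by
  unfold step
  rw [Finset.mul_sum]
  apply Finset.sum_congr rfl
  intro j _
  have : ∑ v : Fin (n + 1), wt p h l j v * (c * F (snocH h v) (snocL l j)) =
      c * ∑ v : Fin (n + 1), wt p h l j v * F (snocH h v) (snocL l j) := by
    rw [Finset.mul_sum]
    apply Finset.sum_congr rfl
    intro v _
    ring
  rw [this]
  ring

/-- One-step operator of the indicator of a link to the node `v`. -/
theorem step_link {n : ℕ} (p : Param 2) (h : Hist n) (l : Fin n → Fin 2) {v : ℕ} (hv : v < n)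
    (a : ℝ) :
    step p (fun (h' : Hist (n + 1)) _ => if (h' (Fin.last n)).val = v then a else 0) h l =
      comp p h l (l ⟨v, hv⟩) * (deg h n v : ℝ) * a := by
  unfold step comp
  rw [Finset.sum_mul, Finset.sum_mul]
  apply Finset.sum_congr rfl
  intro j _
  have : ∑ u : Fin (n + 1), wt p h l j u *
      (if ((snocH h u) (Fin.last n)).val = v then a else 0) =
      p.aff j (l ⟨v, hv⟩) * (deg h n v : ℝ) * a := by
    have h1 : ∀ u : Fin (n + 1), wt p h l j u *
        (if ((snocH h u) (Fin.last n)).val = v then a else 0) =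
        if u = (⟨v, hv⟩ : Fin n).castSucc then wt p h l j u * a else 0 := by
      intro u
      rw [snocH_last]
      have : (u.val = v) ↔ u = (⟨v, hv⟩ : Fin n).castSucc := by
        rw [Fin.ext_iff]
        simp
      by_cases hu : u = (⟨v, hv⟩ : Fin n).castSucc
      · rw [if_pos (this.mpr hu), if_pos hu]
      · rw [if_neg (fun hh => hu (this.mp hh)), if_neg hu, mul_zero]
    rw [Finset.sum_congr rfl (fun u _ => h1 u)]
    simp only [Finset.sum_ite_eq', Finset.mem_univ, if_true, wt_castSucc]
  rw [this]
  ring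

/-- One-step operator of the indicator of a loop. -/
theorem step_loop {n : ℕ} (p : Param 2) (h : Hist n) (l : Fin n → Fin 2) :
    step p (fun (h' : Hist (n + 1)) _ => if (h' (Fin.last n)).val = n then 1 else 0) h l =
      loopP p h l := by
  unfold step loopP
  apply Finset.sum_congr rfl
  intro j _
  congr 2
  rw [Fin.sum_univ_castSucc]
  have h1 : ∀ u : Fin n, wt p h l j u.castSucc *
      (if ((snocH h u.castSucc) (Fin.last n)).val = n then (1 : ℝ) else 0) = 0 := by
    intro u
    have := u.isLt
    rw [if_neg, mul_zero]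
    rw [snocH_last]
    simp
    omega
  rw [Finset.sum_congr rfl (fun u _ => h1 u)]
  simp

/-- Sum over the targets of the weight times the indicator of the label `i` of the target. -/
theorem sum_wt_label {n : ℕ} (p : Param 2) (h : Hist n) (l : Fin n → Fin 2) (i j : Fin 2) :
    ∑ v : Fin (n + 1), wt p h l j v * (if snocL l j v = i then 1 else 0) =
      p.aff j i * S h l i + (if j = i then p.aff j j else 0) := by
  rw [Fin.sum_univ_castSucc]
  simp only [wt_castSucc, snocL_castSucc, wt_last, snocL_last]
  unfold S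
  rw [Finset.mul_sum]
  congr 1
  · apply Finset.sum_congr rfl
    intro u _
    by_cases hu : l u = i
    · simp [hu]
    · simp [hu]
  · split_ifs <;> simp

/-- The increment of the degree sum of label `0`. -/
def drift {n : ℕ} (p : Param 2) (h : Hist n) (l : Fin n → Fin 2) : ℝ :=
  p.prob 0 + S h l 0 * comp p h l 0 + p.prob 0 * (p.aff 0 0 / norm p h l n 0)

theorem step_S {n : ℕ} (p : Param 2) (h : Hist n) (l : Fin n → Fin 2) :
    step p (fun h' l' => S h' l' 0) h l = S h l 0 + drift p h l := by
  have h1 : step p (fun h' l' => S h' l' 0) h l =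
      step p (fun h' l' => S h l 0 + ((if l' (Fin.last n) = 0 then 1 else 0) +
        (if l' (h' (Fin.last n)) = 0 then 1 else 0))) h l := by
    unfold step
    apply Finset.sum_congr rfl
    intro j _
    congr 2
    apply Finset.sum_congr rfl
    intro v _
    beta_reduce
    rw [S_snoc, snocL_last, snocH_last, add_assoc]
  rw [h1, step_const_add]
  congr 1
  unfold step drift comp
  rw [Fin.sum_univ_two, Fin.sum_univ_two]
  have h2 : ∀ j : Fin 2, ∑ v : Fin (n + 1), wt p h l j v *
      ((if snocL l j (Fin.last n) = 0 then (1 : ℝ) else 0) +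
        (if snocL l j (snocH h v (Fin.last n)) = 0 then 1 else 0)) =
      (if j = 0 then norm p h l n j else 0) +
        (p.aff j 0 * S h l 0 + (if j = 0 then p.aff j j else 0)) := by
    intro j
    rw [← sum_wt_label, ← sum_wt]
    have : (if j = 0 then ∑ v : Fin (n + 1), wt p h l j v else 0) =
        ∑ v : Fin (n + 1), wt p h l j v * (if j = 0 then 1 else 0) := by
      split_ifs <;> simp
    rw [this, ← Finset.sum_add_distrib]
    apply Finset.sum_congr rfl
    intro v _
    rw [snocL_last, snocH_last]
    ring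
  rw [h2, h2]
  have hN0 := (norm_pos p h l n 0).ne'
  have hN1 := (norm_pos p h l n 1).ne'
  simp
  field_simp
  ring

end

end Pool.Agent.Helper77_PA
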