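import Mathlib

/-!
# Real-variable lemmas for the identifiability proof
-/

namespace Pool.Agent.Helper77_PA

/-- The limiting link intensity of a node of label `0`. -/
noncomputable def c0 (p0 p1 a b c y : ℝ) : ℝ :=
  p0 * (a / (a * y + b * (1 - y))) + p1 * (b / (b * y + c * (1 - y)))

/-- The limiting link intensity of a node of label `1`. -/
noncomputable def c1 (p0 p1 a b c y : ℝ) : ℝ :=
  p0 * (b / (a * y + b * (1 - y))) + p1 * (c / (b * y + c * (1 - y)))

theorem den_pos {a b y : ℝ} (ha : 0 < a) (hb : 0 < b) (h0 : 0 ≤ y) (h1 : y ≤ 1) :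
    0 < a * y + b * (1 - y) := by
  rcases lt_or_eq_of_le h0 with h | h
  · have : 0 < a * y := mul_pos ha h
    have : 0 ≤ b * (1 - y) := mul_nonneg hb.le (by linarith)
    linarith
  · rw [← h]
    linarith

theorem den_le {a b M y : ℝ} (ha : a ≤ M) (hb : b ≤ M) (h0 : 0 ≤ y) (h1 : y ≤ 1) :
    a * y + b * (1 - y) ≤ M := by
  nlinarith [mul_nonneg h0 (sub_nonneg.mpr ha), mul_nonneg (sub_nonneg.mpr h1) (sub_nonneg.mpr hb)]

theorem le_den {a b m y : ℝ} (ha : m ≤ a) (hb : m ≤ b) (h0 : 0 ≤ y) (h1 : y ≤ 1) :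
    m ≤ a * y + b * (1 - y) := by
  nlinarith [mul_nonneg h0 (sub_nonneg.mpr ha), mul_nonneg (sub_nonneg.mpr h1) (sub_nonneg.mpr hb)]

theorem div_den {a b y D : ℝ} (hD : D = a * y + b * (1 - y)) (h : D ≠ 0) :
    a / D = 1 + (1 - y) * ((a - b) / D) ∧ b / D = 1 - y * ((a - b) / D) := by
  constructor
  · field_simp
    rw [hD]
    ring
  · field_simp
    rw [hD]
    ring

theorem c0_eq {p0 p1 a b c y : ℝ} (hp : p0 + p1 = 1) (ha : 0 < a) (hb : 0 < b) (hc : 0 < c)
    (h0 : 0 ≤ y) (h1 : y ≤ 1) : c0 p0 p1 a b c y - 1 =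
      (1 - y) * (p0 * (a - b) / (a * y + b * (1 - y)) -
        p1 * (c - b) / (b * y + c * (1 - y))) := by
  have d0 := (den_pos ha hb h0 h1).ne'
  have d1 := (den_pos hb hc h0 h1).ne'
  rw [c0, (div_den rfl d0).1, (div_den rfl d1).1]
  have : p1 = 1 - p0 := by linarith
  rw [this]
  ring

theorem c1_eq {p0 p1 a b c y : ℝ} (hp : p0 + p1 = 1) (ha : 0 < a) (hb : 0 < b) (hc : 0 < c)
    (h0 : 0 ≤ y) (h1 : y ≤ 1) : c1 p0 p1 a b c y - 1 =
      - (y * (p0 * (a - b) / (a * y + b * (1 - y)) -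
        p1 * (c - b) / (b * y + c * (1 - y)))) := by
  have d0 := (den_pos ha hb h0 h1).ne'
  have d1 := (den_pos hb hc h0 h1).ne'
  rw [c1, (div_den rfl d0).2, (div_den rfl d1).2]
  have : p1 = 1 - p0 := by linarith
  rw [this]
  ring

theorem diff_eq {p0 p1 a b c y : ℝ} (hp : p0 + p1 = 1) (ha : 0 < a) (hb : 0 < b) (hc : 0 < c)
    (h0 : 0 ≤ y) (h1 : y ≤ 1) :
    p0 * (a - b) / (a * y + b * (1 - y)) - p1 * (c - b) / (b * y + c * (1 - y)) =
      ((a - b) * (c - b) * (p0 - y) + b * (p0 * (a - b) - p1 * (c - b))) /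
        ((a * y + b * (1 - y)) * (b * y + c * (1 - y))) := by
  have d0 := (den_pos ha hb h0 h1).ne'
  have d1 := (den_pos hb hc h0 h1).ne'
  rw [div_sub_div _ _ d0 d1]
  congr 1
  have : p1 = 1 - p0 := by linarith
  rw [this]
  ring

theorem key_ineq {e z g y e0 e1 σ : ℝ} (he0 : 0 < e0) (h0 : e0 ≤ e) (h1 : e ≤ e1) (hy0 : 0 ≤ y)
    (hy1 : y ≤ 1) (hσg : σ * g = |g|) (hσ : |σ| = 1) :
    (2 * e0 * |g| / (1 + e1) ^ 2) * |g| / 2 ≤
      e * z ^ 2 + -σ * (2 * e0 * |g| / (1 + e1) ^ 2) * (-g + z * (1 + y * (1 - y) * e)) := by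
  have he1 : 0 < e1 := by linarith
  have he : 0 < e := by linarith
  have hL : 0 < 1 + e1 := by linarith
  set L := 1 + e1 with hLdef
  set ε := 2 * e0 * |g| / L ^ 2 with hε
  have hεnn : 0 ≤ ε := by positivity
  have hyy : 0 ≤ y * (1 - y) := mul_nonneg hy0 (by linarith)
  have hyy1 : y * (1 - y) ≤ 1 := by nlinarith
  have hfac : 0 ≤ 1 + y * (1 - y) * e := by positivity
  have hfacL : 1 + y * (1 - y) * e ≤ L := by
    have := mul_le_mul hyy1 h1 he.le zero_le_one
    linarith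
  have hsz : σ * (z * (1 + y * (1 - y) * e)) ≤ |z| * L := by
    calc σ * (z * (1 + y * (1 - y) * e))
        ≤ |σ * (z * (1 + y * (1 - y) * e))| := le_abs_self _
      _ = |z| * (1 + y * (1 - y) * e) := by
          rw [abs_mul, hσ, abs_mul, abs_of_nonneg hfac, one_mul]
      _ ≤ |z| * L := mul_le_mul_of_nonneg_left hfacL (abs_nonneg _)
  have h8 : ε * (σ * (z * (1 + y * (1 - y) * e))) ≤ ε * (|z| * L) :=
    mul_le_mul_of_nonneg_left hsz hεnn
  have h9 : e0 * |z| ^ 2 ≤ e * z ^ 2 := by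
    rw [sq_abs]
    exact mul_le_mul_of_nonneg_right h0 (sq_nonneg _)
  have h10 : 0 ≤ e0 * (|z| - ε * L / (2 * e0)) ^ 2 := by positivity
  have h12 : e0 * (|z| - ε * L / (2 * e0)) ^ 2 =
      e0 * |z| ^ 2 - ε * (|z| * L) + ε * (ε * L ^ 2 / (4 * e0)) := by
    field_simp
    ring
  have h13 : ε * L ^ 2 / (4 * e0) = |g| / 2 := by
    rw [hε]
    field_simp
    ring
  rw [h13] at h12
  have h14 : e * z ^ 2 + -σ * ε * (-g + z * (1 + y * (1 - y) * e)) =
      e * z ^ 2 + ε * (σ * g) - ε * (σ * (z * (1 + y * (1 - y) * e))) := by ring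
  rw [h14, hσg]
  linarith

theorem exists_sign {g : ℝ} (hg : g ≠ 0) : ∃ σ : ℝ, σ * g = |g| ∧ |σ| = 1 := by
  rcases lt_or_gt_of_ne hg with h | h
  · exact ⟨-1, by rw [abs_of_neg h]; ring, by norm_num⟩
  · exact ⟨1, by rw [abs_of_pos h]; ring, by norm_num⟩

/-- If the parameters are not balanced, a combination of the three bounded quantities has positive
drift. -/
theorem exists_multipliers {p0 p1 a b c : ℝ} (hp0 : 0 < p0) (hp1 : 0 < p1) (hp : p0 + p1 = 1)
    (ha : 0 < a) (hb : 0 < b) (hc : 0 < c) (hne : p0 * (a - b) ≠ p1 * (c - b)) :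
    ∃ lam mu nu k : ℝ, 0 < k ∧ ∀ y : ℝ, 0 ≤ y → y ≤ 1 →
      k ≤ lam * (c0 p0 p1 a b c y - 1) + mu * (c1 p0 p1 a b c y - 1) +
        nu * (p0 + y * c0 p0 p1 a b c y - 2 * y) := by
  have haM : a ≤ a + b + c := by linarith
  have hbM : b ≤ a + b + c := by linarith
  have hcM : c ≤ a + b + c := by linarith
  have hM0 : 0 < a + b + c := by linarith
  rcases lt_or_ge 0 ((a - b) * (c - b)) with huw | huw
  · -- the interesting case
    obtain ⟨g, hg⟩ : ∃ g, g * ((a - b) * (c - b)) = b * (p0 * (a - b) - p1 * (c - b)) :=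
      ⟨b * (p0 * (a - b) - p1 * (c - b)) / ((a - b) * (c - b)), div_mul_cancel₀ _ huw.ne'⟩
    have hg0 : g ≠ 0 := by
      intro h
      rw [h, zero_mul] at hg
      rcases mul_eq_zero.mp hg.symm with h1 | h1
      · exact hb.ne' h1
      · exact hne (sub_eq_zero.mp h1)
    obtain ⟨σ, hσg, hσ⟩ := exists_sign hg0
    obtain ⟨m, hm0, hma, hmb, hmc⟩ : ∃ m : ℝ, 0 < m ∧ m ≤ a ∧ m ≤ b ∧ m ≤ c :=
      ⟨min a (min b c), lt_min ha (lt_min hb hc), min_le_left _ _,
        le_trans (min_le_right _ _) (min_le_left _ _),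
        le_trans (min_le_right _ _) (min_le_right _ _)⟩
    have hgabs : 0 < |g| := abs_pos.mpr hg0
    have he0 : 0 < (a - b) * (c - b) / (a + b + c) ^ 2 := by positivity
    have he1 : 0 < (a - b) * (c - b) / m ^ 2 := by positivity
    refine ⟨p0 + g, 1 - (p0 + g), -σ * (2 * ((a - b) * (c - b) / (a + b + c) ^ 2) * |g| /
      (1 + (a - b) * (c - b) / m ^ 2) ^ 2),
      (2 * ((a - b) * (c - b) / (a + b + c) ^ 2) * |g| /
      (1 + (a - b) * (c - b) / m ^ 2) ^ 2) * |g| / 2, by positivity, ?_⟩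
    intro y h0 h1
    have d0 := den_pos ha hb h0 h1
    have d1 := den_pos hb hc h0 h1
    have hD0M := den_le haM hbM h0 h1
    have hD1M := den_le hbM hcM h0 h1
    have hD0m := le_den hma hmb h0 h1
    have hD1m := le_den hmb hmc h0 h1
    have hC0 := c0_eq hp ha hb hc h0 h1
    have hC1 := c1_eq hp ha hb hc h0 h1
    rw [diff_eq hp ha hb hc h0 h1, ← hg] at hC0 hC1
    generalize a * y + b * (1 - y) = D0 at *
    generalize b * y + c * (1 - y) = D1 at *
    have h2 : (a - b) * (c - b) * (p0 - y) + g * ((a - b) * (c - b)) =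
        (a - b) * (c - b) * (p0 + g - y) := by ring
    rw [h2, mul_div_right_comm] at hC0 hC1
    have he : (a - b) * (c - b) / (a + b + c) ^ 2 ≤ (a - b) * (c - b) / (D0 * D1) := by
      apply div_le_div_of_nonneg_left huw.le (by positivity)
      nlinarith
    have he' : (a - b) * (c - b) / (D0 * D1) ≤ (a - b) * (c - b) / m ^ 2 := by
      apply div_le_div_of_nonneg_left huw.le (by positivity)
      nlinarith
    have key := key_ineq (z := p0 + g - y) he0 he he' h0 h1 hσg hσ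
    generalize (a - b) * (c - b) / (D0 * D1) = e at *
    refine le_trans key (le_of_eq ?_)
    have h3 : c0 p0 p1 a b c y = 1 + (1 - y) * (e * (p0 + g - y)) := by linarith
    rw [hC0, hC1, h3]
    ring
  · -- the sign of the intensity difference is constant
    have hsplit : (0 ≤ a - b ∧ c - b ≤ 0) ∨ (a - b ≤ 0 ∧ 0 ≤ c - b) := by
      rcases mul_nonpos_iff.mp huw with h | h
      · exact Or.inl h
      · exact Or.inr h
    rcases hsplit with ⟨h1u, h1w⟩ | ⟨h1u, h1w⟩
    · have hpos : 0 < p0 * (a - b) - p1 * (c - b) := by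
        have h1 : 0 ≤ p0 * (a - b) := mul_nonneg hp0.le h1u
        have h2 : p1 * (c - b) ≤ 0 := mul_nonpos_of_nonneg_of_nonpos hp1.le h1w
        rcases lt_or_eq_of_le (show p1 * (c - b) ≤ p0 * (a - b) by linarith) with h | h
        · linarith
        · exact absurd h.symm hne
      refine ⟨1, -1, 0, (p0 * (a - b) - p1 * (c - b)) / (a + b + c), by positivity, ?_⟩
      intro y h0 h1
      have d0 := den_pos ha hb h0 h1
      have d1 := den_pos hb hc h0 h1
      rw [c0_eq hp ha hb hc h0 h1, c1_eq hp ha hb hc h0 h1]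
      have e1 : p0 * (a - b) / (a + b + c) ≤ p0 * (a - b) / (a * y + b * (1 - y)) :=
        div_le_div_of_nonneg_left (mul_nonneg hp0.le h1u) d0 (den_le haM hbM h0 h1)
      have e2 : p1 * (-(c - b)) / (a + b + c) ≤ p1 * (-(c - b)) / (b * y + c * (1 - y)) :=
        div_le_div_of_nonneg_left (mul_nonneg hp1.le (by linarith)) d1 (den_le hbM hcM h0 h1)
      have e3 : (p0 * (a - b) - p1 * (c - b)) / (a + b + c) =
        p0 * (a - b) / (a + b + c) + p1 * (-(c - b)) / (a + b + c) := by ring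
      have e4 : p1 * (-(c - b)) / (b * y + c * (1 - y)) =
        - (p1 * (c - b) / (b * y + c * (1 - y))) := by ring
      rw [e4] at e2
      rw [e3]
      linarith
    · have hpos : 0 < p1 * (c - b) - p0 * (a - b) := by
        have h1 : p0 * (a - b) ≤ 0 := mul_nonpos_of_nonneg_of_nonpos hp0.le h1u
        have h2 : 0 ≤ p1 * (c - b) := mul_nonneg hp1.le h1w
        rcases lt_or_eq_of_le (show p0 * (a - b) ≤ p1 * (c - b) by linarith) with h | h
        · linarith
        · exact absurd h hne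
      refine ⟨-1, 1, 0, (p1 * (c - b) - p0 * (a - b)) / (a + b + c), by positivity, ?_⟩
      intro y h0 h1
      have d0 := den_pos ha hb h0 h1
      have d1 := den_pos hb hc h0 h1
      rw [c0_eq hp ha hb hc h0 h1, c1_eq hp ha hb hc h0 h1]
      have e1 : p0 * (-(a - b)) / (a + b + c) ≤ p0 * (-(a - b)) / (a * y + b * (1 - y)) :=
        div_le_div_of_nonneg_left (mul_nonneg hp0.le (by linarith)) d0 (den_le haM hbM h0 h1)
      have e2 : p1 * (c - b) / (a + b + c) ≤ p1 * (c - b) / (b * y + c * (1 - y)) :=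
        div_le_div_of_nonneg_left (mul_nonneg hp1.le h1w) d1 (den_le hbM hcM h0 h1)
      have e3 : (p1 * (c - b) - p0 * (a - b)) / (a + b + c) =
        p1 * (c - b) / (a + b + c) + p0 * (-(a - b)) / (a + b + c) := by ring
      have e4 : p0 * (-(a - b)) / (a * y + b * (1 - y)) =
        - (p0 * (a - b) / (a * y + b * (1 - y))) := by ring
      rw [e4] at e1
      rw [e3]
      linarith

end Pool.Agent.Helper77_PA
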