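import Mathlib
import Pool.Agent.Helper77_PA.Chain
import Pool.Agent.Helper77_PA.Real

/-!
# Parameters whose law has bounded test statistics are balanced
-/

namespace Pool.Agent.Helper77_PA

open Finset

noncomputable section

/-- Monotonicity of the expectation. -/
theorem Ex_mono {K n : ℕ} (p : Param K) {F G : Hist n → (Fin n → Fin K) → ℝ}
    (hFG : ∀ h l, F h l ≤ G h l) : Ex p n F ≤ Ex p n G :=
  Finset.sum_le_sum fun h _ => Finset.sum_le_sum fun l _ =>
    mul_le_mul_of_nonneg_left (hFG h l) (joint_nonneg p h l)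

theorem Ex_add {K n : ℕ} (p : Param K) (F G : Hist n → (Fin n → Fin K) → ℝ) :
    Ex p n (fun h l => F h l + G h l) = Ex p n F + Ex p n G := by
  unfold Ex
  simp only [mul_add, Finset.sum_add_distrib]

theorem Ex_mul {K n : ℕ} (p : Param K) (c : ℝ) (F : Hist n → (Fin n → Fin K) → ℝ) :
    Ex p n (fun h l => c * F h l) = c * Ex p n F := by
  unfold Ex
  rw [Finset.mul_sum]
  apply Finset.sum_congr rfl
  intro h _
  rw [Finset.mul_sum]
  apply Finset.sum_congr rfl
  intro l _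
  ring

theorem Ex_abs_le {K n : ℕ} (p : Param K) (F : Hist n → (Fin n → Fin K) → ℝ) :
    |Ex p n F| ≤ Ex p n (fun h l => |F h l|) := by
  unfold Ex
  refine le_trans (Finset.abs_sum_le_sum_abs _ _) (Finset.sum_le_sum fun h _ => ?_)
  refine le_trans (Finset.abs_sum_le_sum_abs _ _) (Finset.sum_le_sum fun l _ => ?_)
  rw [abs_mul, abs_of_nonneg (joint_nonneg p h l)]

theorem step_mono {K n : ℕ} (p : Param K) {F G : Hist (n + 1) → (Fin (n + 1) → Fin K) → ℝ}
    (h : Hist n) (l : Fin n → Fin K)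
    (hFG : ∀ v j, F (snocH h v) (snocL l j) ≤ G (snocH h v) (snocL l j)) :
    step p F h l ≤ step p G h l := by
  unfold step
  apply Finset.sum_le_sum
  intro j _
  apply mul_le_mul_of_nonneg_left _ (p.prob_nonneg j)
  apply div_le_div_of_nonneg_right _ (norm_pos p h l n j).le
  apply Finset.sum_le_sum
  intro v _
  exact mul_le_mul_of_nonneg_left (hFG v j) (wt_nonneg p h l j v)

theorem step_congr {K n : ℕ} (p : Param K) {F G : Hist (n + 1) → (Fin (n + 1) → Fin K) → ℝ}
    (h : Hist n) (l : Fin n → Fin K)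
    (hFG : ∀ v j, F (snocH h v) (snocL l j) = G (snocH h v) (snocL l j)) :
    step p F h l = step p G h l :=
  le_antisymm (step_mono p h l fun v j => (hFG v j).le) (step_mono p h l fun v j => (hFG v j).ge)

/-- Evolution of the test statistic under the model. -/
theorem Ex_Tst_succ (p : Param 2) {v : ℕ} (hv : v < 2) {n : ℕ} (hn : 2 ≤ n) :
    Ex p (n + 1) (fun h l => indA l * Tst v h) =
      Ex p n (fun h l => indA l * Tst v h) +
        Ex p n (fun h l => indA l * (comp p h l ⟨v, hv⟩ - 1 / refN n)) := by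
  rw [Ex_succ, ← Ex_add]
  congr 1
  funext h l
  have hvn : v < n := by omega
  have hd : (deg h n v : ℝ) ≠ 0 := by
    have := deg_pos h hvn le_rfl
    have : (1 : ℝ) ≤ (deg h n v : ℝ) := by exact_mod_cast this
    linarith
  have e1 : step p (fun (h : Hist (n + 1)) (l : Fin (n + 1) → Fin 2) => indA l * Tst v h) h l =
      indA l * ((Tst v h - 1 / refN n) + comp p h l (l ⟨v, hvn⟩)) := by
    rw [step_congr p h l (G := fun (h' : Hist (n + 1)) _ => indA l * ((Tst v h - 1 / refN n) +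
      (if (h' (Fin.last n)).val = v then 1 / (deg h n v : ℝ) else 0)))]
    · rw [step_mul, step_const_add, step_link p h l hvn]
      congr 2
      field_simp
    · intro u j
      rw [indA_snoc hn, Tst_snoc hn, snocH_last]
      ring
  rw [e1]
  by_cases hA : indA l = 0
  · rw [hA]; ring
  · rw [indA_label hA hv hvn]
    ring

/-- Evolution of the fraction of the degree held by label `0`. -/
theorem Ex_S_succ (p : Param 2) {n : ℕ} (hn : 2 ≤ n) (c : ℝ) :
    Ex p (n + 1) (fun h l => indA l * (c * S h l 0)) =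
      Ex p n (fun h l => indA l * (c * (S h l 0 + drift p h l))) := by
  rw [Ex_succ]
  congr 1
  funext h l
  rw [step_congr p h l (G := fun (h' : Hist (n + 1)) l' => (indA l * c) * S h' l' 0)]
  · rw [step_mul, step_S]
    ring
  · intro u j
    rw [indA_snoc hn]
    ring

theorem joint_pos {n : ℕ} (p : Param 2) (hp : ∀ i, 0 < p.prob i) (h : Hist n)
    (l : Fin n → Fin 2) : 0 < joint p h l := by
  unfold joint
  apply Finset.prod_pos
  intro k _
  apply mul_pos (hp _)
  unfold linkProb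
  apply div_pos _ (norm_pos _ _ _ _ _)
  split_ifs with h1
  · exact p.aff_pos _ _
  · apply mul_pos (p.aff_pos _ _)
    have h2 := (h k).isLt
    have : 1 ≤ deg h k.val (h k).val := deg_pos h (by omega) k.isLt.le
    exact_mod_cast this

theorem Ex_indA_succ (p : Param 2) {n : ℕ} (hn : 2 ≤ n) :
    Ex p (n + 1) (fun _ l => indA l) = Ex p n (fun _ l => indA l) := by
  rw [Ex_succ]
  congr 1
  funext h l
  rw [step_congr p h l (G := fun _ _ => indA l * 1)]
  · rw [step_mul, step_one, mul_one]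
  · intro u j
    rw [indA_snoc hn, mul_one]

theorem Ex_indA (p : Param 2) {n : ℕ} (hn : 2 ≤ n) :
    Ex p n (fun _ l => indA l) = Ex p 2 (fun _ l => indA l) := by
  induction n, hn using Nat.le_induction with
  | base => rfl
  | succ n hn ih => rw [Ex_indA_succ p hn, ih]

theorem Ex_indA_pos (p : Param 2) (hp : ∀ i, 0 < p.prob i) :
    0 < Ex p 2 (fun _ l => indA l) := by
  have h0 : Hist 2 := fun k => ⟨0, Nat.succ_pos _⟩
  have h1 : indA (fun k : Fin 2 => k) = 1 := by
    unfold indA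
    rw [if_pos]
    exact ⟨by norm_num, rfl, rfl⟩
  unfold Ex
  apply Finset.sum_pos' (fun h _ => Finset.sum_nonneg fun l _ =>
    mul_nonneg (joint_nonneg p h l) (indA_nonneg l))
  refine ⟨h0, Finset.mem_univ _, ?_⟩
  apply Finset.sum_pos' (fun l _ => mul_nonneg (joint_nonneg p h0 l) (indA_nonneg l))
  refine ⟨fun k : Fin 2 => k, Finset.mem_univ _, ?_⟩
  rw [h1, mul_one]
  exact joint_pos p hp _ _

/-- Elementary approximation. -/
theorem approx {T D e x M m : ℝ} (hT : 0 < T) (hm : 0 < m) (hmD : m ≤ D) (hmM : m ≤ M)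
    (he : 0 < e) (heM : e ≤ M) (hx : 0 < x) (hxM : x ≤ M) :
    |T * (x / (T * D + e)) - x / D| ≤ (M ^ 2 / m ^ 2) / T := by
  have hD : 0 < D := by linarith
  have hTD : 0 < T * D + e := by positivity
  have h1 : T * (x / (T * D + e)) - x / D = -(x * e / (D * (T * D + e))) := by
    field_simp
    ring
  rw [h1, abs_neg, abs_of_nonneg (by positivity), div_div]
  apply div_le_div₀ (by positivity)
  · nlinarith
  · positivity
  · nlinarith [mul_le_mul hmD hmD hm.le hD.le, mul_pos hD he, mul_pos hT hm]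

/-- A sequence with increments at least `δ/n` is unbounded. -/
theorem false_of_incr {A : ℕ → ℝ} {δ B : ℝ} (hδ : 0 < δ) {n0 : ℕ}
    (h : ∀ n, n0 ≤ n → δ / n ≤ A (n + 1) - A n) (hB : ∀ n, n0 ≤ n → |A n| ≤ B) : False := by
  have h1 : ∀ N, ∑ i ∈ Finset.range N, δ / ((i + n0 : ℕ) : ℝ) ≤ 2 * B := by
    intro N
    have h2 : ∑ i ∈ Finset.range N, δ / ((i + n0 : ℕ) : ℝ) ≤ A (N + n0) - A n0 := by
      induction N with
      | zero => simp
      | succ N ih =>
        rw [Finset.sum_range_succ]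
        have := h (N + n0) (by omega)
        have e : N + 1 + n0 = N + n0 + 1 := by omega
        rw [e]
        linarith
    have h3 := abs_le.mp (hB (N + n0) (by omega))
    have h4 := abs_le.mp (hB n0 le_rfl)
    linarith [h3.2, h4.1]
  have h5 : Summable (fun i : ℕ => δ / ((i + n0 : ℕ) : ℝ)) :=
    summable_of_sum_range_le (fun i => by positivity) h1
  have h6 : Summable (fun i : ℕ => δ / (i : ℝ)) := by
    rw [← summable_nat_add_iff n0]
    exact h5
  have h7 : Summable (fun i : ℕ => 1 / (i : ℝ)) := by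
    have := h6.mul_left (1 / δ)
    refine this.congr ?_
    intro i
    field_simp
  exact Real.not_summable_one_div_natCast h7

/-- Uniform bounds for the entries. -/
theorem exists_bounds (p : Param 2) :
    ∃ m M : ℝ, 0 < m ∧ m ≤ M ∧ (∀ i j, m ≤ p.aff i j) ∧ ∀ i j, p.aff i j ≤ M := by
  have h00 := p.aff_pos 0 0
  have h01 := p.aff_pos 0 1
  have h11 := p.aff_pos 1 1
  have hs := p.aff_symm 1 0
  refine ⟨min (p.aff 0 0) (min (p.aff 0 1) (p.aff 1 1)), p.aff 0 0 + p.aff 0 1 + p.aff 1 1,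
    lt_min h00 (lt_min h01 h11), ?_, ?_, ?_⟩
  · exact le_trans (min_le_left _ _) (by linarith)
  · intro i j
    fin_cases i <;> fin_cases j
    · exact min_le_left _ _
    · exact le_trans (min_le_right _ _) (min_le_left _ _)
    · show _ ≤ p.aff 1 0
      rw [hs]
      exact le_trans (min_le_right _ _) (min_le_left _ _)
    · exact le_trans (min_le_right _ _) (min_le_right _ _)
  · intro i j
    fin_cases i <;> fin_cases j
    · show p.aff 0 0 ≤ _
      linarith
    · show p.aff 0 1 ≤ _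
      linarith
    · show p.aff 1 0 ≤ _
      rw [hs]
      linarith
    · show p.aff 1 1 ≤ _
      linarith

/-- The fraction of the degree held by label `0`. -/
def frac {n : ℕ} (h : Hist n) (l : Fin n → Fin 2) : ℝ := S h l 0 / (2 * n)

theorem S_eq {n : ℕ} (hn : 1 ≤ n) (h : Hist n) (l : Fin n → Fin 2) :
    S h l 0 = (2 * n) * frac h l ∧ S h l 1 = (2 * n) * (1 - frac h l) := by
  have hn0 : (0 : ℝ) < n := by exact_mod_cast hn
  have h1 : S h l 0 = (2 * n) * frac h l := by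
    unfold frac
    field_simp
  refine ⟨h1, ?_⟩
  have := S_add h l
  rw [mul_sub, ← h1]
  linarith

theorem frac_nonneg {n : ℕ} (h : Hist n) (l : Fin n → Fin 2) : 0 ≤ frac h l :=
  div_nonneg (S_nonneg h l 0) (by positivity)

theorem frac_le_one {n : ℕ} (h : Hist n) (l : Fin n → Fin 2) : frac h l ≤ 1 := by
  unfold frac
  apply div_le_one_of_le₀ _ (by positivity)
  have := S_add h l
  have := S_nonneg h l 1
  linarith

theorem norm_eq' {n : ℕ} (hn : 1 ≤ n) (p : Param 2) (h : Hist n) (l : Fin n → Fin 2)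
    (j : Fin 2) : norm p h l n j =
      (2 * n) * (p.aff j 0 * frac h l + p.aff j 1 * (1 - frac h l)) + p.aff j j := by
  rw [norm_eq, (S_eq hn h l).1, (S_eq hn h l).2]
  ring

/-- The one-step intensities are close to their limits. -/
theorem comp_approx (p : Param 2) : ∃ κ : ℝ, 1 ≤ κ ∧ ∀ (n : ℕ), 1 ≤ n → ∀ (h : Hist n)
    (l : Fin n → Fin 2),
    |(2 * n) * comp p h l 0 - c0 (p.prob 0) (p.prob 1) (p.aff 0 0) (p.aff 0 1) (p.aff 1 1)
      (frac h l)| ≤ κ / (2 * n) ∧
    |(2 * n) * comp p h l 1 - c1 (p.prob 0) (p.prob 1) (p.aff 0 0) (p.aff 0 1) (p.aff 1 1)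
      (frac h l)| ≤ κ / (2 * n) ∧
    0 ≤ p.prob 0 * (p.aff 0 0 / norm p h l n 0) ∧
    p.prob 0 * (p.aff 0 0 / norm p h l n 0) ≤ κ / (2 * n) ∧
    |c0 (p.prob 0) (p.prob 1) (p.aff 0 0) (p.aff 0 1) (p.aff 1 1) (frac h l)| ≤ κ ∧
    |(2 * n) * loopP p h l - (p.prob 0 * (p.aff 0 0 / (p.aff 0 0 * frac h l +
      p.aff 0 1 * (1 - frac h l))) + p.prob 1 * (p.aff 1 1 / (p.aff 0 1 * frac h l +
      p.aff 1 1 * (1 - frac h l))))| ≤ κ / (2 * n) := by
  obtain ⟨m, M, hm, hmM, hml, hMu⟩ := exists_bounds p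
  refine ⟨M ^ 2 / m ^ 2, ?_, ?_⟩
  · rw [le_div_iff₀ (by positivity)]
    nlinarith
  intro n hn h l
  have hn0 : (0 : ℝ) < 2 * n := by
    have : (0 : ℝ) < n := by exact_mod_cast hn
    linarith
  have y0 := frac_nonneg h l
  have y1 := frac_le_one h l
  have hs := p.aff_symm 1 0
  have hp0 := p.prob_nonneg 0
  have hp1 := p.prob_nonneg 1
  have hp : p.prob 0 + p.prob 1 = 1 := Bal.prob_add_aux p
  have hN0 := norm_eq' hn p h l 0
  have hN1 := norm_eq' hn p h l 1
  rw [hs] at hN1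
  set y := frac h l with hy
  set D0 := p.aff 0 0 * y + p.aff 0 1 * (1 - y) with hD0
  set D1 := p.aff 0 1 * y + p.aff 1 1 * (1 - y) with hD1
  have hD0m : m ≤ D0 := le_den (hml 0 0) (hml 0 1) y0 y1
  have hD1m : m ≤ D1 := le_den (hml 0 1) (hml 1 1) y0 y1
  have A : ∀ (D e x : ℝ), m ≤ D → 0 < e → e ≤ M → 0 < x → x ≤ M →
      |(2 * n) * (x / ((2 * n) * D + e)) - x / D| ≤ (M ^ 2 / m ^ 2) / (2 * n) :=
    fun D e x hD he heM hx hxM => approx hn0 hm hD hmM he heM hx hxM
  have hκ : M / m ≤ M ^ 2 / m ^ 2 := by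
    rw [div_le_div_iff₀ hm (by positivity)]
    nlinarith [mul_pos hm hm, mul_le_mul_of_nonneg_left hmM (mul_nonneg (by linarith : 0 ≤ M) hm.le)]
  -- combination of two terms
  have comb : ∀ (x0 x1 X0 X1 : ℝ), |(2 * n) * x0 - X0| ≤ (M ^ 2 / m ^ 2) / (2 * n) →
      |(2 * n) * x1 - X1| ≤ (M ^ 2 / m ^ 2) / (2 * n) →
      |(2 * n) * (p.prob 0 * x0 + p.prob 1 * x1) - (p.prob 0 * X0 + p.prob 1 * X1)| ≤
        (M ^ 2 / m ^ 2) / (2 * n) := by
    intro x0 x1 X0 X1 h0 h1
    have e : (2 * n) * (p.prob 0 * x0 + p.prob 1 * x1) - (p.prob 0 * X0 + p.prob 1 * X1) =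
        p.prob 0 * ((2 * n) * x0 - X0) + p.prob 1 * ((2 * n) * x1 - X1) := by ring
    rw [e]
    refine le_trans (abs_add_le _ _) ?_
    rw [abs_mul, abs_mul, abs_of_nonneg hp0, abs_of_nonneg hp1]
    calc p.prob 0 * |(2 * n) * x0 - X0| + p.prob 1 * |(2 * n) * x1 - X1|
        ≤ p.prob 0 * ((M ^ 2 / m ^ 2) / (2 * n)) + p.prob 1 * ((M ^ 2 / m ^ 2) / (2 * n)) :=
          add_le_add (mul_le_mul_of_nonneg_left h0 hp0) (mul_le_mul_of_nonneg_left h1 hp1)
      _ = (M ^ 2 / m ^ 2) / (2 * n) := by rw [← add_mul, hp, one_mul]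
  refine ⟨?_, ?_, ?_, ?_, ?_, ?_⟩
  · unfold comp c0
    rw [Fin.sum_univ_two, hs, hN0, hN1]
    exact comb _ _ _ _ (A _ _ _ hD0m (p.aff_pos 0 0) (hMu 0 0) (p.aff_pos 0 0) (hMu 0 0))
      (A _ _ _ hD1m (p.aff_pos 1 1) (hMu 1 1) (p.aff_pos 0 1) (hMu 0 1))
  · unfold comp c1
    rw [Fin.sum_univ_two, hN0, hN1]
    exact comb _ _ _ _ (A _ _ _ hD0m (p.aff_pos 0 0) (hMu 0 0) (p.aff_pos 0 1) (hMu 0 1))
      (A _ _ _ hD1m (p.aff_pos 1 1) (hMu 1 1) (p.aff_pos 1 1) (hMu 1 1))
  · exact mul_nonneg hp0 (div_nonneg (p.aff_pos 0 0).le (norm_pos p h l n 0).le)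
  · have h1 : p.aff 0 0 / norm p h l n 0 ≤ (M ^ 2 / m ^ 2) / (2 * n) := by
      have ha := p.aff_pos 0 0
      calc p.aff 0 0 / norm p h l n 0 ≤ M / ((2 * n) * m) := by
            rw [hN0]
            apply div_le_div₀ (by linarith) (hMu 0 0) (by positivity)
            nlinarith [mul_le_mul_of_nonneg_left hD0m hn0.le]
        _ = (M / m) / (2 * n) := by
            field_simp
        _ ≤ (M ^ 2 / m ^ 2) / (2 * n) := div_le_div_of_nonneg_right hκ hn0.le
    have h2 : 0 ≤ p.aff 0 0 / norm p h l n 0 := div_nonneg (p.aff_pos 0 0).le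
      (norm_pos p h l n 0).le
    have h3 : p.prob 0 ≤ 1 := by linarith
    nlinarith
  · unfold c0
    have hD0 : 0 < D0 := by linarith
    have hD1 : 0 < D1 := by linarith
    have h00 := p.aff_pos 0 0
    have h01 := p.aff_pos 0 1
    have e0 : p.aff 0 0 / D0 ≤ M / m := div_le_div₀ (by linarith) (hMu 0 0) hm hD0m
    have e1 : p.aff 0 1 / D1 ≤ M / m := div_le_div₀ (by linarith) (hMu 0 1) hm hD1m
    have e2 : 0 ≤ p.aff 0 0 / D0 := by positivity
    have e3 : 0 ≤ p.aff 0 1 / D1 := by positivity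
    rw [abs_of_nonneg (by positivity)]
    calc p.prob 0 * (p.aff 0 0 / D0) + p.prob 1 * (p.aff 0 1 / D1)
        ≤ p.prob 0 * (M ^ 2 / m ^ 2) + p.prob 1 * (M ^ 2 / m ^ 2) :=
          add_le_add (mul_le_mul_of_nonneg_left (le_trans e0 hκ) hp0)
            (mul_le_mul_of_nonneg_left (le_trans e1 hκ) hp1)
      _ = M ^ 2 / m ^ 2 := by rw [← add_mul, hp, one_mul]
  · unfold loopP
    rw [Fin.sum_univ_two, hN0, hN1]
    exact comb _ _ _ _ (A _ _ _ hD0m (p.aff_pos 0 0) (hMu 0 0) (p.aff_pos 0 0) (hMu 0 0))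
      (A _ _ _ hD1m (p.aff_pos 1 1) (hMu 1 1) (p.aff_pos 1 1) (hMu 1 1))

/-- The combined one-step increment is close to its limit. -/
theorem incr_approx (p : Param 2) (lam mu nu : ℝ) : ∃ K : ℝ, 0 ≤ K ∧ ∀ (n : ℕ), 1 ≤ n →
    ∀ (h : Hist n) (l : Fin n → Fin 2),
    lam * (c0 (p.prob 0) (p.prob 1) (p.aff 0 0) (p.aff 0 1) (p.aff 1 1) (frac h l) - 1) +
    mu * (c1 (p.prob 0) (p.prob 1) (p.aff 0 0) (p.aff 0 1) (p.aff 1 1) (frac h l) - 1) +
    nu * (p.prob 0 + frac h l * c0 (p.prob 0) (p.prob 1) (p.aff 0 0) (p.aff 0 1) (p.aff 1 1)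
      (frac h l) - 2 * frac h l) - K / (2 * n) ≤
    (2 * n) * (lam * (comp p h l 0 - 1 / refN n) + mu * (comp p h l 1 - 1 / refN n) +
      nu * (1 / (2 * ((n + 1 : ℕ) : ℝ)) * (S h l 0 + drift p h l) -
        1 / (2 * n) * S h l 0)) := by
  obtain ⟨κ, hκ1, hκ⟩ := comp_approx p
  refine ⟨|lam| * (κ + 2) + |mu| * (κ + 2) + |nu| * (6 + 4 * κ), by positivity, ?_⟩
  intro n hn h l
  obtain ⟨a1, a2, a3, a4, a5, -⟩ := hκ n hn h l
  have hn0 : (0 : ℝ) < 2 * n := by
    have : (0 : ℝ) < n := by exact_mod_cast hn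
    linarith
  have y0 := frac_nonneg h l
  have y1 := frac_le_one h l
  have hp0 := p.prob_nonneg 0
  have hp1 := p.prob_nonneg 1
  have hp : p.prob 0 + p.prob 1 = 1 := Bal.prob_add_aux p
  have hS := (S_eq hn h l).1
  generalize hC0 : c0 (p.prob 0) (p.prob 1) (p.aff 0 0) (p.aff 0 1) (p.aff 1 1) (frac h l) = C0
    at *
  generalize hC1 : c1 (p.prob 0) (p.prob 1) (p.aff 0 0) (p.aff 0 1) (p.aff 1 1) (frac h l) = C1
    at *
  unfold drift
  generalize p.prob 0 * (p.aff 0 0 / norm p h l n 0) = E2 at *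
  generalize comp p h l 0 = x0 at *
  generalize comp p h l 1 = x1 at *
  generalize S h l 0 = S0 at *
  generalize frac h l = y at *
  have hT2 : (2 * ((n + 1 : ℕ) : ℝ)) = 2 * n + 2 := by push_cast; ring
  rw [hT2]
  have hrN : refN n = 2 * n + 1 + th := rfl
  generalize refN n = N at *
  generalize (2 * n : ℝ) = T at *
  have hth0 := th_pos
  have hth1 : th ≤ 1 := by unfold th; norm_num
  have hN : 0 < N := by linarith
  -- the error of the normalisation
  obtain ⟨r, hr⟩ : ∃ r, r = T / N := ⟨_, rfl⟩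
  have hr1 : 1 - r ≤ 2 / T := by
    rw [hr, hrN]
    rw [show (1 : ℝ) - T / (T + 1 + th) = (1 + th) / (T + 1 + th) by field_simp; ring]
    apply div_le_div₀ (by norm_num) (by linarith) hn0 (by linarith)
  have hr0 : 0 ≤ 1 - r := by
    rw [hr, hrN]
    rw [show (1 : ℝ) - T / (T + 1 + th) = (1 + th) / (T + 1 + th) by field_simp; ring]
    positivity
  have b1 : |T * x0 - C0 + (1 - r)| ≤ (κ + 2) / T := by
    refine le_trans (abs_add_le _ _) ?_
    rw [abs_of_nonneg hr0, add_div]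
    exact add_le_add a1 hr1
  have b2 : |T * x1 - C1 + (1 - r)| ≤ (κ + 2) / T := by
    refine le_trans (abs_add_le _ _) ?_
    rw [abs_of_nonneg hr0, add_div]
    exact add_le_add a2 hr1
  obtain ⟨φ, hφ⟩ : ∃ φ, φ = p.prob 0 + y * C0 - 2 * y := ⟨_, rfl⟩
  have hφb : |φ| ≤ 3 + κ := by
    have hc := abs_le.mp a5
    rw [hφ, abs_le]
    constructor <;> nlinarith [hc.1, hc.2, mul_le_mul_of_nonneg_left hc.2 y0,
      mul_le_mul_of_nonneg_left hc.1 y0]
  have b3 : |T * (1 / (T + 2) * (S0 + (p.prob 0 + S0 * x0 + E2)) - 1 / T * S0) - φ| ≤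
      (6 + 4 * κ) / T := by
    have e1 : T * (1 / (T + 2) * (S0 + (p.prob 0 + S0 * x0 + E2)) - 1 / T * S0) - φ =
        -(2 / (T + 2) * φ) + T / (T + 2) * (y * (T * x0 - C0) + E2) := by
      rw [hS, hφ]
      field_simp
      ring
    rw [e1]
    refine le_trans (abs_add_le _ _) ?_
    have e2 : |-(2 / (T + 2) * φ)| ≤ (6 + 2 * κ) / T := by
      rw [abs_neg, abs_mul, abs_of_nonneg (by positivity)]
      calc 2 / (T + 2) * |φ| ≤ 2 / T * (3 + κ) := by
            apply mul_le_mul _ hφb (abs_nonneg _) (by positivity)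
            apply div_le_div_of_nonneg_left (by norm_num) hn0 (by linarith)
        _ = (6 + 2 * κ) / T := by ring
    have e3 : |T / (T + 2) * (y * (T * x0 - C0) + E2)| ≤ 2 * κ / T := by
      rw [abs_mul, abs_of_nonneg (by positivity)]
      have e4 : T / (T + 2) ≤ 1 := by
        rw [div_le_one (by linarith)]
        linarith
      have e5 : |y * (T * x0 - C0) + E2| ≤ 2 * κ / T := by
        refine le_trans (abs_add_le _ _) ?_
        rw [abs_mul, abs_of_nonneg y0, abs_of_nonneg a3]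
        have : y * |T * x0 - C0| ≤ 1 * (κ / T) := mul_le_mul y1 a1 (abs_nonneg _) zero_le_one
        calc y * |T * x0 - C0| + E2 ≤ 1 * (κ / T) + κ / T := add_le_add this a4
          _ = 2 * κ / T := by ring
      calc T / (T + 2) * |y * (T * x0 - C0) + E2| ≤ 1 * (2 * κ / T) :=
            mul_le_mul e4 e5 (abs_nonneg _) zero_le_one
        _ = 2 * κ / T := one_mul _
    calc |-(2 / (T + 2) * φ)| + |T / (T + 2) * (y * (T * x0 - C0) + E2)|
        ≤ (6 + 2 * κ) / T + 2 * κ / T := add_le_add e2 e3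
      _ = (6 + 4 * κ) / T := by ring
  have f : ∀ (c x B : ℝ), |x| ≤ B → -(|c| * B) ≤ c * x := by
    intro c x B hx
    have : |c * x| ≤ |c| * B := by
      rw [abs_mul]
      exact mul_le_mul_of_nonneg_left hx (abs_nonneg _)
    exact (abs_le.mp this).1
  have g1 := f lam _ _ b1
  have g2 := f mu _ _ b2
  have g3 := f nu _ _ b3
  have e6 : T * (lam * (x0 - 1 / N) + mu * (x1 - 1 / N) +
      nu * (1 / (T + 2) * (S0 + (p.prob 0 + S0 * x0 + E2)) - 1 / T * S0)) =
      lam * (C0 - 1) + mu * (C1 - 1) + nu * φ +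
      (lam * (T * x0 - C0 + (1 - r)) + mu * (T * x1 - C1 + (1 - r)) +
      nu * (T * (1 / (T + 2) * (S0 + (p.prob 0 + S0 * x0 + E2)) - 1 / T * S0) - φ)) := by
    rw [hr]
    ring
  have e7 : (|lam| * (κ + 2) + |mu| * (κ + 2) + |nu| * (6 + 4 * κ)) / T =
      |lam| * ((κ + 2) / T) + |mu| * ((κ + 2) / T) + |nu| * ((6 + 4 * κ) / T) := by ring
  rw [e6, e7, ← hφ]
  linarith

/-- If the test statistics of the nodes `0` and `1` have bounded expectations, the parameters are
balanced. -/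
theorem balanced (p : Param 2) (hp : ∀ i, 0 < p.prob i) {B : ℝ}
    (hB : ∀ v < 2, ∀ n, 2 ≤ n → ∑ h : Hist n, law p h * |Tst v h| ≤ B) :
    p.prob 0 * (p.aff 0 0 - p.aff 0 1) = p.prob 1 * (p.aff 1 1 - p.aff 0 1) := by
  by_contra hne
  have hp1 : p.prob 0 + p.prob 1 = 1 := Bal.prob_add_aux p
  obtain ⟨lam, mu, nu, k, hk, hF⟩ := exists_multipliers (hp 0) (hp 1) hp1
    (p.aff_pos 0 0) (p.aff_pos 0 1) (p.aff_pos 1 1) hne
  obtain ⟨K, hK0, hK⟩ := incr_approx p lam mu nu
  have hPA := Ex_indA_pos p hp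
  set PA := Ex p 2 (fun _ l => indA l) with hPAdef
  set A : ℕ → ℝ := fun n => lam * Ex p n (fun h l => indA l * Tst 0 h) +
    mu * Ex p n (fun h l => indA l * Tst 1 h) +
    nu * Ex p n (fun h l => indA l * (1 / (2 * n) * S h l 0)) with hA
  -- boundedness
  have hbd : ∀ v < 2, ∀ n, 2 ≤ n → |Ex p n (fun h l => indA l * Tst v h)| ≤ B := by
    intro v hv n hn
    refine le_trans (Ex_abs_le _ _) ?_
    refine le_trans (Ex_mono p (G := fun h _ => |Tst v h|) fun h l => ?_) ?_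
    · rw [abs_mul, abs_of_nonneg (indA_nonneg l)]
      have := indA_le_one l
      have := indA_nonneg l
      nlinarith [abs_nonneg (Tst v h)]
    · rw [Ex_law]
      exact hB v hv n hn
  have hbd2 : ∀ n, 2 ≤ n → |Ex p n (fun h l => indA l * (1 / (2 * n) * S h l 0))| ≤ 1 := by
    intro n hn
    refine le_trans (Ex_abs_le _ _) ?_
    refine le_trans (Ex_mono p (G := fun _ _ => 1) fun h l => ?_) (le_of_eq (Ex_one p n))
    have e1 : 1 / (2 * (n : ℝ)) * S h l 0 = frac h l := by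
      unfold frac
      ring
    rw [e1, abs_mul, abs_of_nonneg (indA_nonneg l), abs_of_nonneg (frac_nonneg h l)]
    have := indA_le_one l
    have := indA_nonneg l
    have := frac_nonneg h l
    have := frac_le_one h l
    nlinarith
  have hAB : ∀ n, 2 ≤ n → |A n| ≤ |lam| * B + |mu| * B + |nu| * 1 := by
    intro n hn
    rw [hA]
    refine le_trans (abs_add_three _ _ _) ?_
    rw [abs_mul, abs_mul, abs_mul]
    exact add_le_add (add_le_add (mul_le_mul_of_nonneg_left (hbd 0 (by norm_num) n hn)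
      (abs_nonneg _)) (mul_le_mul_of_nonneg_left (hbd 1 (by norm_num) n hn) (abs_nonneg _)))
      (mul_le_mul_of_nonneg_left (hbd2 n hn) (abs_nonneg _))
  -- increments
  obtain ⟨n0, hn0⟩ := exists_nat_gt (K / k)
  refine false_of_incr (A := A) (δ := PA * k / 4) (n0 := max n0 2) (by positivity) ?_
    (fun n hn => hAB n (le_trans (le_max_right _ _) hn))
  intro n hn
  have hn2 : 2 ≤ n := le_trans (le_max_right _ _) hn
  have hnn0 : n0 ≤ n := le_trans (le_max_left _ _) hn
  have hnpos : (0 : ℝ) < n := by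
    have : 0 < n := by omega
    exact_mod_cast this
  have e1 : A (n + 1) - A n = Ex p n (fun h l => indA l *
      (lam * (comp p h l 0 - 1 / refN n) + mu * (comp p h l 1 - 1 / refN n) +
      nu * (1 / (2 * ((n + 1 : ℕ) : ℝ)) * (S h l 0 + drift p h l) -
        1 / (2 * n) * S h l 0))) := by
    have t0 := Ex_Tst_succ p (v := 0) (by norm_num) hn2
    have t1 := Ex_Tst_succ p (v := 1) (by norm_num) hn2
    have t2 := Ex_S_succ p hn2 (1 / (2 * ((n + 1 : ℕ) : ℝ)))
    rw [hA]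
    simp only
    rw [t0, t1, t2]
    have e2 : (fun (h : Hist n) (l : Fin n → Fin 2) => indA l *
      (lam * (comp p h l 0 - 1 / refN n) + mu * (comp p h l 1 - 1 / refN n) +
      nu * (1 / (2 * ((n + 1 : ℕ) : ℝ)) * (S h l 0 + drift p h l) -
        1 / (2 * n) * S h l 0))) = fun (h : Hist n) (l : Fin n → Fin 2) =>
        (lam * (indA l * (comp p h l 0 - 1 / refN n)) +
        mu * (indA l * (comp p h l 1 - 1 / refN n))) +
        (nu * (indA l * (1 / (2 * ((n + 1 : ℕ) : ℝ)) * (S h l 0 + drift p h l))) +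
        (-nu) * (indA l * (1 / (2 * n) * S h l 0))) := by
      funext h l
      ring
    rw [e2, Ex_add, Ex_add, Ex_add, Ex_mul, Ex_mul, Ex_mul, Ex_mul]
    have z0 : (⟨0, by norm_num⟩ : Fin 2) = 0 := rfl
    have z1 : (⟨1, by norm_num⟩ : Fin 2) = 1 := rfl
    rw [z0, z1]
    ring
  rw [e1]
  have e3 : Ex p n (fun h l => (k / (4 * n)) * indA l) ≤ Ex p n (fun h l => indA l *
      (lam * (comp p h l 0 - 1 / refN n) + mu * (comp p h l 1 - 1 / refN n) +
      nu * (1 / (2 * ((n + 1 : ℕ) : ℝ)) * (S h l 0 + drift p h l) -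
        1 / (2 * n) * S h l 0))) := by
    apply Ex_mono
    intro h l
    rw [mul_comm]
    apply mul_le_mul_of_nonneg_left _ (indA_nonneg l)
    have h1 := hK n (by omega) h l
    have h2 := hF (frac h l) (frac_nonneg h l) (frac_le_one h l)
    have h3 : K / (2 * n) ≤ k / 2 := by
      rw [div_le_div_iff₀ (by positivity) (by norm_num)]
      have : K / k < n := lt_of_lt_of_le hn0 (by exact_mod_cast hnn0)
      rw [div_lt_iff₀ hk] at this
      nlinarith
    have h4 : k / 2 ≤ (2 * n) * (lam * (comp p h l 0 - 1 / refN n) +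
        mu * (comp p h l 1 - 1 / refN n) +
        nu * (1 / (2 * ((n + 1 : ℕ) : ℝ)) * (S h l 0 + drift p h l) -
        1 / (2 * n) * S h l 0)) := by linarith
    have h5 : k / (4 * n) = (k / 2) / (2 * n) := by
      field_simp
      ring
    rw [h5, div_le_iff₀ (by positivity)]
    linarith
  refine le_trans (le_of_eq ?_) e3
  rw [Ex_mul, Ex_indA p hn2, ← hPAdef]
  ring

end

end Pool.Agent.Helper77_PA
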