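import Mathlib
import Pool.Agent.Helper77_PA.Balance

/-!
# The loop rate of balanced parameters
-/

namespace Pool.Agent.Helper77_PA

open Finset

noncomputable section

theorem Ex_sq_le {n : ℕ} (p : Param 2) (F : Hist n → (Fin n → Fin 2) → ℝ) :
    (Ex p n F) ^ 2 ≤ Ex p n (fun h l => F h l ^ 2) := by
  have h1 : 0 ≤ Ex p n (fun h l => (F h l - Ex p n F) ^ 2) :=
    Finset.sum_nonneg fun h _ => Finset.sum_nonneg fun l _ =>
      mul_nonneg (joint_nonneg p h l) (sq_nonneg _)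
  have h2 : Ex p n (fun h l => (F h l - Ex p n F) ^ 2) =
      Ex p n (fun h l => F h l ^ 2) - (Ex p n F) ^ 2 := by
    have e : (fun (h : Hist n) (l : Fin n → Fin 2) => (F h l - Ex p n F) ^ 2) =
        fun h l => F h l ^ 2 + ((-2 * Ex p n F) * F h l + (Ex p n F) ^ 2 * 1) := by
      funext h l
      ring
    rw [e, Ex_add, Ex_add, Ex_mul, Ex_mul, Ex_one]
    ring
  linarith

/-- Balanced parameters. -/
def IsBal (p : Param 2) : Prop :=
  p.prob 0 * (p.aff 0 0 - p.aff 0 1) = p.prob 1 * (p.aff 1 1 - p.aff 0 1)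

/-- One-step bound for the centred degree sum. -/
theorem step_sq (p : Param 2) (hp : ∀ i, 0 < p.prob i) (hb : IsBal p) :
    ∃ K : ℝ, 0 ≤ K ∧ ∀ n : ℕ, 1 ≤ n → ∀ (h : Hist n) (l : Fin n → Fin 2),
      step p (fun h' l' => (S h' l' 0 - 2 * ((n + 1 : ℕ) : ℝ) * p.prob 0) ^ 2) h l ≤
        (1 + 1 / (n : ℝ)) * (S h l 0 - 2 * (n : ℝ) * p.prob 0) ^ 2 + K := by
  obtain ⟨κ, hκ1, hκ⟩ := comp_approx p
  refine ⟨4 * κ + 4, by positivity, ?_⟩
  intro n hn h l
  have hnpos : (0 : ℝ) < n := by exact_mod_cast hn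
  have hp1 : p.prob 0 + p.prob 1 = 1 := Bal.prob_add_aux p
  have hp0 := hp 0
  have hp1' := hp 1
  set X := S h l 0 - 2 * (n : ℝ) * p.prob 0 with hX
  -- reduction to the drift
  have e1 : step p (fun h' l' => (S h' l' 0 - 2 * ((n + 1 : ℕ) : ℝ) * p.prob 0) ^ 2) h l ≤
      step p (fun h' l' => (X ^ 2 + 4 - 2 * X * (S h l 0 + 2 * p.prob 0)) +
        (2 * X) * S h' l' 0) h l := by
    apply step_mono
    intro v j
    rw [S_snoc]
    have : ∀ e f : ℝ, 0 ≤ e → e ≤ 1 → 0 ≤ f → f ≤ 1 →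
        (S h l 0 + e + f - 2 * ((n + 1 : ℕ) : ℝ) * p.prob 0) ^ 2 ≤
        X ^ 2 + 4 - 2 * X * (S h l 0 + 2 * p.prob 0) + 2 * X * (S h l 0 + e + f) := by
      intro e f he0 he1 hf0 hf1
      have e2 : S h l 0 + e + f - 2 * ((n + 1 : ℕ) : ℝ) * p.prob 0 =
          X + (e + f - 2 * p.prob 0) := by
        rw [hX]
        push_cast
        ring
      rw [e2]
      have h3 : (e + f - 2 * p.prob 0) ^ 2 ≤ 4 := by
        have h4 : -2 ≤ e + f - 2 * p.prob 0 := by linarith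
        have h5 : e + f - 2 * p.prob 0 ≤ 2 := by linarith
        nlinarith
      nlinarith
    apply this
    · split_ifs <;> norm_num
    · split_ifs <;> norm_num
    · split_ifs <;> norm_num
    · split_ifs <;> norm_num
  refine le_trans e1 ?_
  rw [step_const_add, step_mul, step_S]
  obtain ⟨a1, -, a3, a4, -, -⟩ := hκ n hn h l
  have y0 := frac_nonneg h l
  have y1 := frac_le_one h l
  have hS := (S_eq hn h l).1
  have hc := c0_eq hp1 (p.aff_pos 0 0) (p.aff_pos 0 1) (p.aff_pos 1 1) y0 y1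
  rw [diff_eq hp1 (p.aff_pos 0 0) (p.aff_pos 0 1) (p.aff_pos 1 1) y0 y1] at hc
  have hb' : p.prob 0 * (p.aff 0 0 - p.aff 0 1) - p.prob 1 * (p.aff 1 1 - p.aff 0 1) = 0 :=
    sub_eq_zero.mpr hb
  rw [hb', mul_zero, add_zero] at hc
  have huw : 0 ≤ (p.aff 0 0 - p.aff 0 1) * (p.aff 1 1 - p.aff 0 1) := by
    have h1 : p.prob 1 * ((p.aff 0 0 - p.aff 0 1) * (p.aff 1 1 - p.aff 0 1)) =
        p.prob 0 * (p.aff 0 0 - p.aff 0 1) ^ 2 := by
      have : p.prob 1 * (p.aff 1 1 - p.aff 0 1) = p.prob 0 * (p.aff 0 0 - p.aff 0 1) := hb.symm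
      calc p.prob 1 * ((p.aff 0 0 - p.aff 0 1) * (p.aff 1 1 - p.aff 0 1))
          = (p.aff 0 0 - p.aff 0 1) * (p.prob 1 * (p.aff 1 1 - p.aff 0 1)) := by ring
        _ = p.prob 0 * (p.aff 0 0 - p.aff 0 1) ^ 2 := by rw [this]; ring
    have h2 : 0 ≤ p.prob 1 * ((p.aff 0 0 - p.aff 0 1) * (p.aff 1 1 - p.aff 0 1)) := by
      rw [h1]; positivity
    exact nonneg_of_mul_nonneg_right h2 hp1'
  have hd0 := den_pos (p.aff_pos 0 0) (p.aff_pos 0 1) y0 y1
  have hd1 := den_pos (p.aff_pos 0 1) (p.aff_pos 1 1) y0 y1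
  unfold drift
  generalize hC0 : c0 (p.prob 0) (p.prob 1) (p.aff 0 0) (p.aff 0 1) (p.aff 1 1) (frac h l) = C0
    at *
  generalize p.prob 0 * (p.aff 0 0 / norm p h l n 0) = E2 at *
  generalize comp p h l 0 = x0 at *
  have hw : 0 ≤ (p.aff 0 0 - p.aff 0 1) * (p.aff 1 1 - p.aff 0 1) /
    ((p.aff 0 0 * frac h l + p.aff 0 1 * (1 - frac h l)) *
      (p.aff 0 1 * frac h l + p.aff 1 1 * (1 - frac h l))) := by positivity
  have hc2 : C0 = 1 + (1 - frac h l) * ((p.prob 0 - frac h l) *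
    ((p.aff 0 0 - p.aff 0 1) * (p.aff 1 1 - p.aff 0 1) /
    ((p.aff 0 0 * frac h l + p.aff 0 1 * (1 - frac h l)) *
      (p.aff 0 1 * frac h l + p.aff 1 1 * (1 - frac h l))))) := by
    have : C0 = 1 + (C0 - 1) := by ring
    rw [this, hc]
    ring
  generalize (p.aff 0 0 - p.aff 0 1) * (p.aff 1 1 - p.aff 0 1) /
    ((p.aff 0 0 * frac h l + p.aff 0 1 * (1 - frac h l)) *
      (p.aff 0 1 * frac h l + p.aff 1 1 * (1 - frac h l))) = w at *
  generalize frac h l = y at *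
  have hXy : X = 2 * n * (y - p.prob 0) := by
    rw [hX, hS]
    ring
  have hXabs : |X| ≤ 2 * n := by
    rw [hXy, abs_mul, abs_of_pos (by positivity)]
    have : |y - p.prob 0| ≤ 1 := by
      rw [abs_le]
      constructor <;> linarith
    nlinarith [abs_nonneg (y - p.prob 0)]
  have herr : |X * (y * (2 * n * x0 - C0) + E2)| ≤ 2 * κ := by
    rw [abs_mul]
    have h1 : |y * (2 * n * x0 - C0) + E2| ≤ 2 * κ / (2 * n) := by
      refine le_trans (abs_add_le _ _) ?_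
      rw [abs_mul, abs_of_nonneg y0, abs_of_nonneg a3]
      have : y * |2 * n * x0 - C0| ≤ 1 * (κ / (2 * n)) :=
        mul_le_mul y1 a1 (abs_nonneg _) zero_le_one
      calc y * |2 * n * x0 - C0| + E2 ≤ 1 * (κ / (2 * n)) + κ / (2 * n) := add_le_add this a4
        _ = 2 * κ / (2 * n) := by ring
    calc |X| * |y * (2 * n * x0 - C0) + E2| ≤ (2 * n) * (2 * κ / (2 * n)) :=
          mul_le_mul hXabs h1 (abs_nonneg _) (by positivity)
      _ = 2 * κ := by field_simp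
  have herr2 := (abs_le.mp herr).2
  -- identity for the drift
  have hid : X ^ 2 + 4 - 2 * X * (S h l 0 + 2 * p.prob 0) +
      2 * X * (S h l 0 + (p.prob 0 + S h l 0 * x0 + E2)) =
      (1 + 1 / (n : ℝ)) * X ^ 2 + 4 + 2 * (X * (y * (2 * n * x0 - C0) + E2)) -
        4 * n * ((y - p.prob 0) ^ 2 * (y * (1 - y) * w)) := by
    rw [hXy, hS, hc2]
    field_simp
    ring
  rw [hid]
  have hlast : 0 ≤ 4 * n * ((y - p.prob 0) ^ 2 * (y * (1 - y) * w)) := by
    have : 0 ≤ 1 - y := by linarith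
    positivity
  linarith

/-- Mean-square bound for the centred degree sum. -/
theorem Ex_sq_bound (p : Param 2) (hp : ∀ i, 0 < p.prob i) (hb : IsBal p) :
    ∃ C : ℝ, 0 ≤ C ∧ ∀ n : ℕ, 1 ≤ n →
      Ex p n (fun h l => (S h l 0 - 2 * (n : ℝ) * p.prob 0) ^ 2) ≤ C * (n * Real.sqrt n) := by
  obtain ⟨K, hK0, hK⟩ := step_sq p hp hb
  refine ⟨4 + 2 * K, by positivity, ?_⟩
  intro n hn
  induction n, hn using Nat.le_induction with
  | base =>
    have : Ex p 1 (fun h l => (S h l 0 - 2 * ((1 : ℕ) : ℝ) * p.prob 0) ^ 2) ≤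
        Ex p 1 (fun _ _ => 4 * 1) := by
      apply Ex_mono
      intro h l
      have h1 := S_add h l
      have h2 := S_nonneg h l 0
      have h3 := S_nonneg h l 1
      have hp1 : p.prob 0 + p.prob 1 = 1 := Bal.prob_add_aux p
      have hp0 := hp 0
      have hp1' := hp 1
      push_cast at h1 ⊢
      have h4 : -2 ≤ S h l 0 - 2 * 1 * p.prob 0 := by linarith
      have h5 : S h l 0 - 2 * 1 * p.prob 0 ≤ 2 := by linarith
      nlinarith
    rw [Ex_mul, Ex_one] at this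
    have e : ((1 : ℕ) : ℝ) * Real.sqrt ((1 : ℕ) : ℝ) = 1 := by simp
    rw [e]
    linarith
  | succ n hn ih =>
    rw [Ex_succ]
    have h1 : Ex p n (step p (fun h' l' => (S h' l' 0 - 2 * ((n + 1 : ℕ) : ℝ) * p.prob 0) ^ 2)) ≤
        Ex p n (fun h l => (1 + 1 / (n : ℝ)) * (S h l 0 - 2 * (n : ℝ) * p.prob 0) ^ 2 +
          K * 1) := by
      apply Ex_mono
      intro h l
      rw [mul_one]
      exact hK n hn h l
    rw [Ex_add, Ex_mul, Ex_mul, Ex_one] at h1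
    refine le_trans h1 ?_
    have hnpos : (0 : ℝ) < n := by exact_mod_cast hn
    have h2 : (1 + 1 / (n : ℝ)) * Ex p n (fun h l => (S h l 0 - 2 * (n : ℝ) * p.prob 0) ^ 2) ≤
        (1 + 1 / (n : ℝ)) * ((4 + 2 * K) * (n * Real.sqrt n)) :=
      mul_le_mul_of_nonneg_left ih (by positivity)
    have h3 : (1 + 1 / (n : ℝ)) * ((4 + 2 * K) * (n * Real.sqrt n)) =
        (4 + 2 * K) * ((n + 1) * Real.sqrt n) := by
      field_simp
    have h4 : Real.sqrt n + 1 / (2 * Real.sqrt ((n : ℝ) + 1)) ≤ Real.sqrt ((n : ℝ) + 1) := by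
      have s0 := Real.sqrt_nonneg (n : ℝ)
      have s1 : 0 < Real.sqrt ((n : ℝ) + 1) := Real.sqrt_pos.mpr (by linarith)
      have s2 := Real.sq_sqrt hnpos.le
      have s3 := Real.sq_sqrt (show (0 : ℝ) ≤ (n : ℝ) + 1 by linarith)
      have s4 : Real.sqrt n ≤ Real.sqrt ((n : ℝ) + 1) := Real.sqrt_le_sqrt (by linarith)
      rw [← sub_nonneg]
      have : Real.sqrt ((n : ℝ) + 1) - (Real.sqrt n + 1 / (2 * Real.sqrt ((n : ℝ) + 1))) =
          (2 * Real.sqrt ((n : ℝ) + 1) * (Real.sqrt ((n : ℝ) + 1) - Real.sqrt n) - 1) /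
            (2 * Real.sqrt ((n : ℝ) + 1)) := by
        field_simp
        ring
      rw [this]
      apply div_nonneg _ (by positivity)
      nlinarith
    have h5 : (n + 1) * Real.sqrt n + 1 / 2 ≤ ((n : ℝ) + 1) * Real.sqrt ((n : ℝ) + 1) := by
      have s1 : 0 < Real.sqrt ((n : ℝ) + 1) := Real.sqrt_pos.mpr (by linarith)
      have s3 := Real.sq_sqrt (show (0 : ℝ) ≤ (n : ℝ) + 1 by linarith)
      have s5 : 1 ≤ Real.sqrt ((n : ℝ) + 1) := by
        rw [Real.le_sqrt (by norm_num) (by linarith)]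
        linarith
      have h6 := mul_le_mul_of_nonneg_left h4 (show (0 : ℝ) ≤ (n : ℝ) + 1 by linarith)
      have h7 : ((n : ℝ) + 1) * (1 / (2 * Real.sqrt ((n : ℝ) + 1))) =
          Real.sqrt ((n : ℝ) + 1) / 2 := by
        field_simp
        linarith
      rw [mul_add, h7] at h6
      linarith
    push_cast
    nlinarith [mul_le_mul_of_nonneg_left h5 (show (0 : ℝ) ≤ 4 + 2 * K by positivity)]

end

end Pool.Agent.Helper77_PA
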