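import Mathlib
import Pool.Agent.Helper77_PA.Loop

/-!
# The limit of the loop rate
-/

namespace Pool.Agent.Helper77_PA

open Finset Filter

noncomputable section

theorem Ex_loopP (p : Param 2) (n : ℕ) : Ex p n (fun h l => loopP p h l) =
    ∑ h : Hist (n + 1), law p h * (if (h (Fin.last n)).val = n then 1 else 0) := by
  rw [← Ex_law p (n + 1) (fun h => if (h (Fin.last n)).val = n then 1 else 0), Ex_succ]
  congr 1
  funext h l
  exact (step_loop p h l).symm

theorem Ex_loopP_eq {p q : Param 2} (h : SameLaw p q) (n : ℕ) :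
    Ex p n (fun h l => loopP p h l) = Ex q n (fun h l => loopP q h l) := by
  rw [Ex_loopP, Ex_loopP]
  apply Finset.sum_congr rfl
  intro h' _
  rw [h]

/-- Mean absolute deviation of the label fraction. -/
theorem Ex_frac_bound (p : Param 2) (hp : ∀ i, 0 < p.prob i) (hb : IsBal p) :
    ∃ C : ℝ, 0 ≤ C ∧ ∀ n : ℕ, 1 ≤ n →
      Ex p n (fun h l => |frac h l - p.prob 0|) ≤ Real.sqrt (C / Real.sqrt n) := by
  obtain ⟨C, hC0, hC⟩ := Ex_sq_bound p hp hb
  refine ⟨C / 4, by positivity, ?_⟩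
  intro n hn
  have hnpos : (0 : ℝ) < n := by exact_mod_cast hn
  have hs : 0 < Real.sqrt n := Real.sqrt_pos.mpr hnpos
  apply Real.le_sqrt_of_sq_le
  refine le_trans (Ex_sq_le p _) ?_
  have e : (fun (h : Hist n) (l : Fin n → Fin 2) => |frac h l - p.prob 0| ^ 2) =
      fun h l => (1 / (4 * (n : ℝ) ^ 2)) * (S h l 0 - 2 * (n : ℝ) * p.prob 0) ^ 2 := by
    funext h l
    rw [sq_abs]
    unfold frac
    field_simp
    ring
  rw [e, Ex_mul]
  calc (1 / (4 * (n : ℝ) ^ 2)) * Ex p n (fun h l => (S h l 0 - 2 * (n : ℝ) * p.prob 0) ^ 2)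
      ≤ (1 / (4 * (n : ℝ) ^ 2)) * (C * (n * Real.sqrt n)) :=
        mul_le_mul_of_nonneg_left (hC n hn) (by positivity)
    _ = C / 4 / Real.sqrt n := by
        have h2 : Real.sqrt n * Real.sqrt n = n := Real.mul_self_sqrt hnpos.le
        field_simp
        nlinarith [h2]

/-- The loop rate of balanced parameters. -/
theorem loop_rate (p : Param 2) (hp : ∀ i, 0 < p.prob i) (hb : IsBal p) :
    Tendsto (fun n : ℕ => (2 * (n : ℝ)) * Ex p n (fun h l => loopP p h l)) atTop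
      (nhds ((p.prob 0 * p.aff 0 0 + p.prob 1 * p.aff 1 1) /
        (p.prob 0 * p.aff 0 0 + p.prob 1 * p.aff 0 1))) := by
  obtain ⟨κ, hκ1, hκ⟩ := comp_approx p
  obtain ⟨C, hC0, hC⟩ := Ex_frac_bound p hp hb
  obtain ⟨m, M, hm, hmM, hml, hMu⟩ := exists_bounds p
  have hp1 : p.prob 0 + p.prob 1 = 1 := Bal.prob_add_aux p
  have hp0 := hp 0
  have hp1' := hp 1
  have ha := p.aff_pos 0 0
  have hbb := p.aff_pos 0 1
  have hc := p.aff_pos 1 1
  set mm := p.prob 0 * p.aff 0 0 + p.prob 1 * p.aff 0 1 with hmm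
  have hmm0 : m ≤ mm := by
    have h1 := hml 0 0
    have h2 := hml 0 1
    rw [hmm]
    nlinarith [mul_le_mul_of_nonneg_left h1 hp0.le, mul_le_mul_of_nonneg_left h2 hp1'.le]
  have hmmpos : 0 < mm := by linarith
  have hmm2 : mm = p.prob 0 * p.aff 0 1 + p.prob 1 * p.aff 1 1 := by
    have : p.prob 0 * (p.aff 0 0 - p.aff 0 1) = p.prob 1 * (p.aff 1 1 - p.aff 0 1) := hb
    rw [hmm]
    linarith
  set W := (p.prob 0 * p.aff 0 0 + p.prob 1 * p.aff 1 1) / mm with hW
  have hlip : ∀ y : ℝ, 0 ≤ y → y ≤ 1 →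
      |(p.prob 0 * (p.aff 0 0 / (p.aff 0 0 * y + p.aff 0 1 * (1 - y))) +
        p.prob 1 * (p.aff 1 1 / (p.aff 0 1 * y + p.aff 1 1 * (1 - y)))) - W| ≤
      (M ^ 2 / m ^ 2) * |y - p.prob 0| := by
    intro y y0 y1
    have d0 := den_pos ha hbb y0 y1
    have d1 := den_pos hbb hc y0 y1
    have d0m := le_den (hml 0 0) (hml 0 1) y0 y1
    have d1m := le_den (hml 0 1) (hml 1 1) y0 y1
    have e0 : p.aff 0 0 * y + p.aff 0 1 * (1 - y) =
        mm + (p.aff 0 0 - p.aff 0 1) * (y - p.prob 0) := by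
      have : p.prob 1 = 1 - p.prob 0 := by linarith
      rw [hmm, this]
      ring
    have e1 : p.aff 0 1 * y + p.aff 1 1 * (1 - y) =
        mm + (p.aff 0 1 - p.aff 1 1) * (y - p.prob 0) := by
      have : p.prob 1 = 1 - p.prob 0 := by linarith
      rw [hmm2, this]
      ring
    generalize p.aff 0 0 * y + p.aff 0 1 * (1 - y) = D0 at *
    generalize p.aff 0 1 * y + p.aff 1 1 * (1 - y) = D1 at *
    have f : ∀ (x D z : ℝ), 0 < x → x ≤ M → m ≤ D → D = mm + z * (y - p.prob 0) → |z| ≤ M →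
        |x / D - x / mm| ≤ (M ^ 2 / m ^ 2) * |y - p.prob 0| := by
      intro x D z hx hxM hD hDe hz
      have hDpos : 0 < D := by linarith
      have e2 : x / D - x / mm = -(x * z * (y - p.prob 0) / (D * mm)) := by
        have hD0 := hDpos.ne'
        have hm0 := hmmpos.ne'
        rw [div_sub_div _ _ hD0 hm0, ← neg_div]
        congr 1
        rw [hDe]
        ring
      rw [e2, abs_neg, abs_div, abs_mul, abs_mul, abs_of_pos hx,
        abs_of_pos (mul_pos hDpos hmmpos)]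
      calc x * |z| * |y - p.prob 0| / (D * mm)
          ≤ M ^ 2 * |y - p.prob 0| / (m ^ 2) := by
            apply div_le_div₀ (by positivity) _ (by positivity)
            · nlinarith
            · apply mul_le_mul_of_nonneg_right _ (abs_nonneg _)
              nlinarith [abs_nonneg z]
        _ = (M ^ 2 / m ^ 2) * |y - p.prob 0| := by ring
    have hz0 : |p.aff 0 0 - p.aff 0 1| ≤ M := by
      rw [abs_le]
      constructor <;> linarith [hMu 0 0, hMu 0 1]
    have hz1 : |p.aff 0 1 - p.aff 1 1| ≤ M := by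
      rw [abs_le]
      constructor <;> linarith [hMu 1 1, hMu 0 1]
    have g0 := f (p.aff 0 0) D0 _ ha (hMu 0 0) d0m e0 hz0
    have g1 := f (p.aff 1 1) D1 _ hc (hMu 1 1) d1m e1 hz1
    have e3 : (p.prob 0 * (p.aff 0 0 / D0) + p.prob 1 * (p.aff 1 1 / D1)) - W =
        p.prob 0 * (p.aff 0 0 / D0 - p.aff 0 0 / mm) +
          p.prob 1 * (p.aff 1 1 / D1 - p.aff 1 1 / mm) := by
      rw [hW]
      ring
    rw [e3]
    refine le_trans (abs_add_le _ _) ?_
    rw [abs_mul, abs_mul, abs_of_pos hp0, abs_of_pos hp1']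
    calc p.prob 0 * |p.aff 0 0 / D0 - p.aff 0 0 / mm| +
          p.prob 1 * |p.aff 1 1 / D1 - p.aff 1 1 / mm|
        ≤ p.prob 0 * ((M ^ 2 / m ^ 2) * |y - p.prob 0|) +
          p.prob 1 * ((M ^ 2 / m ^ 2) * |y - p.prob 0|) :=
          add_le_add (mul_le_mul_of_nonneg_left g0 hp0.le)
            (mul_le_mul_of_nonneg_left g1 hp1'.le)
      _ = (M ^ 2 / m ^ 2) * |y - p.prob 0| := by rw [← add_mul, hp1, one_mul]
  rw [tendsto_iff_norm_sub_tendsto_zero]
  have hbound : ∀ᶠ n : ℕ in atTop,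
      ‖(2 * (n : ℝ)) * Ex p n (fun h l => loopP p h l) - W‖ ≤
        κ / 2 / (n : ℝ) + (M ^ 2 / m ^ 2) * Real.sqrt (C / Real.sqrt n) := by
    filter_upwards [eventually_ge_atTop 1] with n hn
    have hnpos : (0 : ℝ) < n := by exact_mod_cast hn
    rw [Real.norm_eq_abs]
    have e1 : (2 * (n : ℝ)) * Ex p n (fun h l => loopP p h l) - W =
        Ex p n (fun h l => (2 * (n : ℝ)) * loopP p h l + (-W) * 1) := by
      rw [Ex_add, Ex_mul, Ex_mul, Ex_one]
      ring
    rw [e1]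
    refine le_trans (Ex_abs_le _ _) ?_
    have e2 : Ex p n (fun h l => |(2 * (n : ℝ)) * loopP p h l + (-W) * 1|) ≤
        Ex p n (fun h l => κ / 2 / (n : ℝ) * 1 + (M ^ 2 / m ^ 2) * |frac h l - p.prob 0|) := by
      apply Ex_mono
      intro h l
      obtain ⟨-, -, -, -, -, a6⟩ := hκ n hn h l
      have h1 := hlip (frac h l) (frac_nonneg h l) (frac_le_one h l)
      have h2 : (2 * (n : ℝ)) * loopP p h l + (-W) * 1 =
          ((2 * (n : ℝ)) * loopP p h l - (p.prob 0 * (p.aff 0 0 / (p.aff 0 0 * frac h l +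
      p.aff 0 1 * (1 - frac h l))) + p.prob 1 * (p.aff 1 1 / (p.aff 0 1 * frac h l +
      p.aff 1 1 * (1 - frac h l))))) +
          ((p.prob 0 * (p.aff 0 0 / (p.aff 0 0 * frac h l +
      p.aff 0 1 * (1 - frac h l))) + p.prob 1 * (p.aff 1 1 / (p.aff 0 1 * frac h l +
      p.aff 1 1 * (1 - frac h l)))) - W) := by ring
      rw [h2]
      refine le_trans (abs_add_le _ _) ?_
      have h3 : κ / 2 / (n : ℝ) * 1 = κ / (2 * n) := by
        field_simp
      rw [h3]
      exact add_le_add a6 h1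
    refine le_trans e2 ?_
    rw [Ex_add, Ex_mul, Ex_mul, Ex_one, mul_one]
    have h4 : 0 ≤ M ^ 2 / m ^ 2 := by positivity
    linarith [mul_le_mul_of_nonneg_left (hC n hn) h4]
  have hlim : Tendsto (fun n : ℕ => κ / 2 / (n : ℝ) +
      (M ^ 2 / m ^ 2) * Real.sqrt (C / Real.sqrt n)) atTop (nhds 0) := by
    have t1 : Tendsto (fun n : ℕ => κ / 2 / (n : ℝ)) atTop (nhds 0) :=
      tendsto_const_div_atTop_nhds_zero_nat _
    have t2 : Tendsto (fun n : ℕ => Real.sqrt (n : ℝ)) atTop atTop :=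
      Real.tendsto_sqrt_atTop.comp tendsto_natCast_atTop_atTop
    have t3 : Tendsto (fun n : ℕ => C / Real.sqrt (n : ℝ)) atTop (nhds 0) :=
      t2.const_div_atTop C
    have t4 : Tendsto (fun n : ℕ => Real.sqrt (C / Real.sqrt (n : ℝ))) atTop (nhds 0) := by
      have := (Real.continuous_sqrt.tendsto 0).comp t3
      rwa [Real.sqrt_zero] at this
    have t5 := t1.add (t4.const_mul (M ^ 2 / m ^ 2))
    simpa using t5
  exact squeeze_zero' (Eventually.of_forall fun n => norm_nonneg _) hbound hlim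

/-- Balanced parameters with the same law have the same loop rate. -/
theorem loop_rate_eq {p q : Param 2} (hp : ∀ i, 0 < p.prob i) (hbp : IsBal p)
    (hq : ∀ i, 0 < q.prob i) (hbq : IsBal q) (h : SameLaw p q) :
    (p.prob 0 * p.aff 0 0 + p.prob 1 * p.aff 1 1) /
      (p.prob 0 * p.aff 0 0 + p.prob 1 * p.aff 0 1) =
    (q.prob 0 * q.aff 0 0 + q.prob 1 * q.aff 1 1) /
      (q.prob 0 * q.aff 0 0 + q.prob 1 * q.aff 0 1) := by
  have h1 := loop_rate p hp hbp
  have h2 := loop_rate q hq hbq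
  have h3 : (fun n : ℕ => (2 * (n : ℝ)) * Ex p n (fun h l => loopP p h l)) =
      fun n : ℕ => (2 * (n : ℝ)) * Ex q n (fun h l => loopP q h l) := by
    funext n
    rw [Ex_loopP_eq h n]
  rw [h3] at h1
  exact tendsto_nhds_unique h1 h2

theorem Bal.isBal {q : Param 2} {s : Fin 2 → ℝ} (B : Bal q s) : IsBal q := by
  unfold IsBal
  rw [B.haff, B.haff, B.haff]
  have := B.hs0
  linear_combination th * (s 0 - s 1) * this

theorem Bal.rate {q : Param 2} {s : Fin 2 → ℝ} (B : Bal q s) :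
    (q.prob 0 * q.aff 0 0 + q.prob 1 * q.aff 1 1) /
      (q.prob 0 * q.aff 0 0 + q.prob 1 * q.aff 0 1) = 1 + th := by
  rw [B.haff, B.haff, B.haff]
  have h0 := B.hs0
  have h1 := B.hs1
  have h2 := B.prob_add
  have e1 : q.prob 0 * (1 + th * s 0 * s 0) + q.prob 1 * (1 + th * s 1 * s 1) = 1 + th := by
    linear_combination h2 + th * h1
  have e2 : q.prob 0 * (1 + th * s 0 * s 0) + q.prob 1 * (1 + th * s 0 * s 1) = 1 := by
    linear_combination h2 + th * s 0 * h0
  rw [e1, e2, div_one]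

end

end Pool.Agent.Helper77_PA
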