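import Mathlib
import Pool.Agent.Helper77_PA.Rate
import Pool.Agent.Helper41_PA.Alg

/-!
# Identifiability
-/

namespace Pool.Agent.Helper77_PA

open Finset

theorem identifiable_of_bal (h1 : OneStepStatement) {q : Param 2} {s : Fin 2 → ℝ} (B : Bal q s)
    (hq : ∀ i, 0 < q.prob i) : Identifiable q := by
  refine ⟨hq, fun p hpq => ?_⟩
  have hL := Ex_loopP_eq hpq 1
  have hp := Helper41_PA.prob_pos_of B hq hL
  have hbal : IsBal p := by
    apply balanced p hp (B := 2)
    intro v hv n hn
    have e : ∑ h : Hist n, law p h * |Tst v h| = ∑ h : Hist n, law q h * |Tst v h| :=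
      Finset.sum_congr rfl fun h _ => by rw [hpq n h]
    rw [e]
    apply law_Tst_le q hv _ hn
    have := chi_le h1 B (n := n) (by omega)
    linarith
  have hW := loop_rate_eq hp hbal hq B.isBal hpq
  rw [B.rate] at hW
  exact Helper41_PA.equivalent_of B hq hp hbal hW hL

end Pool.Agent.Helper77_PA
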